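import Pool.Agent.Lib.MP_a80c92_pr.Defs2
import Pool.Agent.Lib.MP_a80c92_pr.CPb

/-! # JOB N/CPx: compound Poisson laws and unbounded characters

PROOF. Adapt `integral_CP` in CPb.lean (complete there for `‖c‖ ≤ 1`). Now `c` is integrable for `m`.
`∫⁻ ‖c‖ d(cpow m n) = (∫⁻ ‖c‖ dm)^n` and `∫⁻ ‖c‖ d(CP m) < ∞` by `lintegral_cpow`,
`lintegral_CP_ofReal` (CPa.lean) for the multiplicative function `‖c‖`; so `c` is integrable for
`cpow m n` and `CP m`; `∫ c d(cpow m n) = (∫ c dm)^n` by induction (`integral_conv`); sum. -/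

open MeasureTheory Set Filter Topology ProbabilityTheory
open scoped ENNReal NNReal

namespace Pool.Agent.Lib.MP_a80c92_pr

private theorem CPx_cpow_int {M : Type*} [AddCommMonoid M] [MeasurableSpace M] [MeasurableAdd₂ M]
    (m : Measure M) [IsFiniteMeasure m] (c : M → ℂ) (hc : Measurable c)
    (h0 : c 0 = 1) (hadd : ∀ x y, c (x + y) = c x * c y) (hint : Integrable c m) (n : ℕ) :
    Integrable c (cpow m n) := by
  refine ⟨hc.aestronglyMeasurable, ?_⟩
  rw [hasFiniteIntegral_iff_norm]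
  have h1 := lintegral_cpow m (fun x => ENNReal.ofReal ‖c x‖) hc.norm.ennreal_ofReal
    (by rw [h0, norm_one, ENNReal.ofReal_one])
    (fun x y => by rw [hadd, norm_mul, ENNReal.ofReal_mul (norm_nonneg _)]) n
  rw [h1]
  exact ENNReal.pow_lt_top ((hasFiniteIntegral_iff_norm _).1 hint.2)

private theorem CPx_cpow {M : Type*} [AddCommMonoid M] [MeasurableSpace M] [MeasurableAdd₂ M]
    (m : Measure M) [IsFiniteMeasure m] (c : M → ℂ) (hc : Measurable c)
    (h0 : c 0 = 1) (hadd : ∀ x y, c (x + y) = c x * c y) (hint : Integrable c m) (n : ℕ) :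
    ∫ x, c x ∂(cpow m n) = (∫ x, c x ∂m) ^ n := by
  induction n with
  | zero =>
    rw [pow_zero]
    change ∫ x, c x ∂(Measure.dirac 0) = 1
    rw [integral_dirac' c 0 hc.stronglyMeasurable, h0]
  | succ n ih =>
    change ∫ x, c x ∂(cpow m n ∗ m) = _
    rw [integral_conv (CPx_cpow_int m c hc h0 hadd hint (n + 1))]
    have h1 : ∀ x, ∫ y, c (x + y) ∂m = c x * ∫ y, c y ∂m := by
      intro x
      rw [← integral_const_mul]
      simp only [hadd]
    simp only [h1]
    rw [integral_mul_const, ih, pow_succ]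

theorem integral_CP_cx {M : Type*} [AddCommMonoid M] [MeasurableSpace M] [MeasurableAdd₂ M]
    (m : Measure M) [IsFiniteMeasure m] (c : M → ℂ) (hc : Measurable c)
    (h0 : c 0 = 1) (hadd : ∀ x y, c (x + y) = c x * c y) (hint : Integrable c m) :
    Integrable c (CP m) ∧ ∫ x, c x ∂(CP m) = Complex.exp (∫ x, (c x - 1) ∂m) := by
  have hCPi : Integrable c (CP m) := by
    refine ⟨hc.aestronglyMeasurable, ?_⟩
    rw [hasFiniteIntegral_iff_norm]
    have h1 := lintegral_CP_ofReal m (fun x => ‖c x‖) hc.norm (fun x => norm_nonneg _)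
      (by rw [h0, norm_one]) (fun x y => by rw [hadd, norm_mul]) hint.norm
    rw [h1]
    exact ENNReal.ofReal_lt_top
  refine ⟨hCPi, ?_⟩
  obtain ⟨μs, hμs⟩ : ∃ μs, μs = Measure.sum (fun n : ℕ => ((n.factorial : ℝ≥0∞)⁻¹) • cpow m n) := ⟨_, rfl⟩
  have hCP : CP m = ENNReal.ofReal (Real.exp (-(m.real univ))) • μs := by rw [hμs, CP]
  have hpos : 0 < Real.exp (-(m.real univ)) := Real.exp_pos _
  have hi : Integrable c μs := by
    rw [hCP] at hCPi
    exact (integrable_smul_measure (ENNReal.ofReal_pos.2 hpos).ne' ENNReal.ofReal_ne_top).1 hCPi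
  have h2 : HasSum (fun n : ℕ => (∫ x, c x ∂m) ^ n / (n.factorial : ℂ)) (∫ x, c x ∂μs) := by
    rw [hμs] at hi
    have h3 := hasSum_integral_measure hi
    rw [← hμs] at h3
    have h4 : (fun n : ℕ => ∫ x, c x ∂(((n.factorial : ℝ≥0∞)⁻¹) • cpow m n)) =
        fun n : ℕ => (∫ x, c x ∂m) ^ n / (n.factorial : ℂ) := by
      funext n
      rw [integral_smul_measure, CPx_cpow m c hc h0 hadd hint, ENNReal.toReal_inv, ENNReal.toReal_natCast,
        Complex.real_smul, Complex.ofReal_inv, Complex.ofReal_natCast, div_eq_mul_inv, mul_comm]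
    rw [h4] at h3
    exact h3
  have h5 : ∫ x, c x ∂μs = Complex.exp (∫ x, c x ∂m) := by
    have h6 := NormedSpace.expSeries_div_hasSum_exp (∫ x, c x ∂m)
    rw [← Complex.exp_eq_exp_ℂ] at h6
    exact h2.unique h6
  have h7 : ∫ x, (c x - 1) ∂m = (∫ x, c x ∂m) - (m.real univ : ℂ) := by
    rw [integral_sub hint (integrable_const _), integral_const, Complex.real_smul, mul_one]
  rw [hCP, integral_smul_measure, h5, ENNReal.toReal_ofReal hpos.le, h7, Complex.real_smul,
    Complex.ofReal_exp, ← Complex.exp_add, Complex.ofReal_neg]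
  congr 1
  ring

end Pool.Agent.Lib.MP_a80c92_pr
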