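import Pool.Agent.Lib.MP_a80c92_pr.Defs2
import Pool.Agent.Lib.MP_a80c92_pr.App

/-! # JOB N/Ckx: the complex Lévy-Khinchin integrand

PROOF. For `|x| < 1`: `|e^{zx} - 1 - zx| ≤ |z|² x² e^{|z|}` (for all complex `w`:
`|e^w - 1 - w| ≤ |w|² e^{|w|}`); for `|x| = 1` bounded; for `|x| > 1`, `Re z = θ`:
`|ckx| ≤ e^{θx} + 1`, integrable on `{1 < |x|}` by `InDom` (`e^{θx} ≤ e^{θx + ε|x|}`;
`ν {1 < |x|} < ∞`, `ν {1} , ν {-1} < ∞`). `int_A`: `e^{θx}` is integrable on every `An n`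
(`ν (An n) < ∞`, bounded on `|x| ≤ 1`). `psi_mod`: real parts: `Re (psiC(θ+it) - psiC(θ)) =
-s2 t²/2 + ∫ e^{θx} (cos tx - 1) dν` since
`Re (ckx (θ+it) x - ckx θ x) = e^{θx} (cos tx - 1)` and `Re ((θ+it)² - θ²) = -t²`, `Re (g i t) = 0`;
`‖exp w‖ = exp (Re w)`. -/

open MeasureTheory Set Filter Topology ProbabilityTheory
open scoped ENNReal NNReal

namespace Pool.Agent.Lib.MP_a80c92_pr

/-- Domination. -/
private theorem Ckx_dom {E : Type*} [NormedAddCommGroup E] (ν : Measure ℝ) (h : IsLevy ν) (θ ε : ℝ)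
    (hfin : ∫⁻ x in {x : ℝ | 1 < |x|}, ENNReal.ofReal (Real.exp (θ * x + ε * |x|)) ∂ν < ∞)
    (F : ℝ → E) (hF : AEStronglyMeasurable F ν) (C : ℝ) (hC : 0 ≤ C)
    (h1 : ∀ x, |x| ≤ 1 → ‖F x‖ ≤ C * x ^ 2)
    (h2 : ∀ x, 1 < |x| → ‖F x‖ ≤ C * Real.exp (θ * x + ε * |x|) + C) : Integrable F ν := by
  have hms : MeasurableSet {x : ℝ | 1 < |x|} := measurableSet_lt measurable_const measurable_id.abs
  have hme : Measurable (fun x : ℝ => Real.exp (θ * x + ε * |x|)) :=
    Real.measurable_exp.comp ((measurable_const.mul measurable_id).add (measurable_const.mul measurable_id.abs))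
  have hi : IntegrableOn (fun x : ℝ => Real.exp (θ * x + ε * |x|)) {x : ℝ | 1 < |x|} ν := by
    refine ⟨hme.aestronglyMeasurable, ?_⟩
    rw [hasFiniteIntegral_iff_ofReal (ae_of_all _ fun x => (Real.exp_pos _).le)]
    exact hfin
  have hG : Integrable (fun x => C * min 1 (x ^ 2) +
      ({x : ℝ | 1 < |x|}).indicator (fun x => C * Real.exp (θ * x + ε * |x|)) x) ν :=
    ((integrable_min ν h).const_mul C).add ((integrable_indicator_iff hms).2 (hi.const_mul C))
  refine hG.mono' hF (ae_of_all _ fun x => ?_)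
  by_cases hx : 1 < |x|
  · rw [indicator_of_mem (show x ∈ {x : ℝ | 1 < |x|} from hx)]
    have h3 : 1 ≤ x ^ 2 := by
      rw [← sq_abs]
      exact one_le_pow₀ hx.le
    rw [min_eq_left h3, mul_one]
    have := h2 x hx
    linarith
  · rw [indicator_of_notMem (show x ∉ {x : ℝ | 1 < |x|} from hx), add_zero]
    have h3 : x ^ 2 ≤ 1 := by
      rw [← sq_abs]
      exact pow_le_one₀ (abs_nonneg x) (not_lt.1 hx)
    rw [min_eq_right h3]
    exact h1 x (not_lt.1 hx)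

private theorem Ckx_exp_le (θ x : ℝ) (hx : |x| ≤ 1) : Real.exp (θ * x) ≤ Real.exp |θ| := by
  refine Real.exp_le_exp.2 ((le_abs_self _).trans ?_)
  rw [abs_mul]
  exact mul_le_of_le_one_right (abs_nonneg _) hx

private theorem Ckx_taylor (w : ℂ) : ‖Complex.exp w - 1 - w‖ ≤ ‖w‖ ^ 2 * Real.exp ‖w‖ := by
  have h1 := Complex.norm_exp_sub_sum_le_norm_mul_exp w 2
  have h2 : ∑ m ∈ Finset.range 2, w ^ m / (m.factorial : ℂ) = 1 + w := by
    rw [Finset.sum_range_succ, Finset.sum_range_one]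
    simp
  rw [h2] at h1
  rw [sub_sub]
  exact h1

private theorem Ckx_meas (z : ℂ) : Measurable (ckx z) := by
  unfold ckx
  have h1 : Measurable fun x : ℝ => z * (x : ℂ) := measurable_const.mul Complex.measurable_ofReal
  refine ((Complex.measurable_exp.comp h1).sub measurable_const).sub ?_
  exact Measurable.ite (measurableSet_lt continuous_abs.measurable measurable_const) h1 measurable_const

theorem ckx_int (ν : Measure ℝ) (h : IsLevy ν) (θ t : ℝ) (hd : InDom ν θ) :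
    Integrable (ckx (θ + t * Complex.I)) ν := by
  obtain ⟨ε, hε, hfin⟩ := hd
  obtain ⟨z, hz⟩ : ∃ z : ℂ, z = θ + t * Complex.I := ⟨_, rfl⟩
  have hre : z.re = θ := by
    rw [hz]
    simp
  rw [← hz]
  have hexp : ∀ x : ℝ, ‖Complex.exp (z * x)‖ = Real.exp (θ * x) := by
    intro x
    rw [Complex.norm_exp]
    congr 1
    rw [Complex.re_mul_ofReal, hre]
  have hC0 : 0 ≤ ‖z‖ ^ 2 * Real.exp ‖z‖ := mul_nonneg (sq_nonneg _) (Real.exp_pos _).le
  have hC1 := Real.exp_pos |θ|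
  refine Ckx_dom ν h θ ε hfin (ckx z) (Ckx_meas z).aestronglyMeasurable
    (‖z‖ ^ 2 * Real.exp ‖z‖ + Real.exp |θ| + 1) (by linarith) ?_ ?_
  · intro x hx
    rcases lt_or_eq_of_le hx with hx1 | hx1
    · have h1 : ckx z x = Complex.exp (z * x) - 1 - z * x := by
        unfold ckx
        rw [if_pos hx1]
      rw [h1]
      refine (Ckx_taylor _).trans ?_
      have h2 : ‖z * (x : ℂ)‖ = ‖z‖ * |x| := by
        rw [norm_mul, Complex.norm_real, Real.norm_eq_abs]
      rw [h2, mul_pow, sq_abs]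
      have h3 : Real.exp (‖z‖ * |x|) ≤ Real.exp ‖z‖ :=
        Real.exp_le_exp.2 (mul_le_of_le_one_right (norm_nonneg _) hx)
      have h4 : 0 ≤ x ^ 2 := sq_nonneg x
      calc ‖z‖ ^ 2 * x ^ 2 * Real.exp (‖z‖ * |x|) ≤ ‖z‖ ^ 2 * x ^ 2 * Real.exp ‖z‖ :=
            mul_le_mul_of_nonneg_left h3 (mul_nonneg (sq_nonneg _) h4)
        _ = (‖z‖ ^ 2 * Real.exp ‖z‖) * x ^ 2 := by ring
        _ ≤ (‖z‖ ^ 2 * Real.exp ‖z‖ + Real.exp |θ| + 1) * x ^ 2 :=
            mul_le_mul_of_nonneg_right (by linarith) h4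
    · have h1 : ckx z x = Complex.exp (z * x) - 1 := by
        unfold ckx
        rw [if_neg (by rw [hx1]; exact lt_irrefl _), sub_zero]
      have h2 : x ^ 2 = 1 := by
        rw [← sq_abs, hx1, one_pow]
      rw [h1, h2, mul_one]
      refine (norm_sub_le _ _).trans ?_
      rw [hexp, norm_one]
      have := Ckx_exp_le θ x hx
      linarith
  · intro x hx
    have h1 : ckx z x = Complex.exp (z * x) - 1 := by
      unfold ckx
      rw [if_neg (not_lt.2 hx.le), sub_zero]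
    rw [h1]
    refine (norm_sub_le _ _).trans ?_
    rw [hexp, norm_one]
    have h2 : Real.exp (θ * x) ≤ Real.exp (θ * x + ε * |x|) :=
      Real.exp_le_exp.2 (le_add_of_nonneg_right (mul_nonneg hε.le (abs_nonneg x)))
    have h3 := Real.exp_pos (θ * x + ε * |x|)
    have h4 : 0 ≤ (‖z‖ ^ 2 * Real.exp ‖z‖ + Real.exp |θ|) * Real.exp (θ * x + ε * |x|) :=
      mul_nonneg (by linarith) h3.le
    linarith

theorem int_A (ν : Measure ℝ) (h : IsLevy ν) (θ : ℝ) (hd : InDom ν θ) (n : ℕ) :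
    IntegrableOn (fun x => Real.exp (θ * x)) (An n) ν := by
  obtain ⟨ε, hε, hfin⟩ := hd
  have hd0 := app_dl_pos n
  have hme : Measurable (fun x : ℝ => Real.exp (θ * x)) :=
    Real.measurable_exp.comp (measurable_const.mul measurable_id)
  rw [← integrable_indicator_iff (measurableSet_An n)]
  have hC1 := Real.exp_pos |θ|
  have hC2 : 0 ≤ Real.exp |θ| / dl n ^ 2 := div_nonneg hC1.le (sq_nonneg _)
  refine Ckx_dom ν h θ ε hfin _ ((hme.indicator (measurableSet_An n)).aestronglyMeasurable)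
    (Real.exp |θ| / dl n ^ 2 + 1) (by linarith) ?_ ?_
  · intro x hx
    by_cases hxA : x ∈ An n
    · rw [indicator_of_mem hxA, Real.norm_eq_abs, abs_of_pos (Real.exp_pos _)]
      refine (Ckx_exp_le θ x hx).trans ?_
      have h1 : dl n ^ 2 ≤ x ^ 2 := by
        rw [← sq_abs x]
        exact pow_le_pow_left₀ hd0.le (show dl n < |x| from hxA).le 2
      have h2 : Real.exp |θ| = Real.exp |θ| / dl n ^ 2 * dl n ^ 2 := by
        rw [div_mul_cancel₀ _ (pow_ne_zero 2 hd0.ne')]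
      calc Real.exp |θ| = Real.exp |θ| / dl n ^ 2 * dl n ^ 2 := h2
        _ ≤ Real.exp |θ| / dl n ^ 2 * x ^ 2 := mul_le_mul_of_nonneg_left h1 hC2
        _ ≤ (Real.exp |θ| / dl n ^ 2 + 1) * x ^ 2 := mul_le_mul_of_nonneg_right (by linarith) (sq_nonneg x)
    · rw [indicator_of_notMem hxA, norm_zero]
      exact mul_nonneg (by linarith) (sq_nonneg x)
  · intro x hx
    have h3 := Real.exp_pos (θ * x + ε * |x|)
    have h4 : 0 ≤ Real.exp |θ| / dl n ^ 2 * Real.exp (θ * x + ε * |x|) := mul_nonneg hC2 h3.le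
    by_cases hxA : x ∈ An n
    · rw [indicator_of_mem hxA, Real.norm_eq_abs, abs_of_pos (Real.exp_pos _)]
      have h2 : Real.exp (θ * x) ≤ Real.exp (θ * x + ε * |x|) :=
        Real.exp_le_exp.2 (le_add_of_nonneg_right (mul_nonneg hε.le (abs_nonneg x)))
      linarith
    · rw [indicator_of_notMem hxA, norm_zero]
      linarith

theorem int_tilt_sq (ν : Measure ℝ) (h : IsLevy ν) (θ : ℝ) (hd : InDom ν θ) :
    Integrable (fun x => x ^ 2 * Real.exp (θ * x)) ν := by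
  obtain ⟨ε, hε, hfin⟩ := hd
  have hme : Measurable (fun x : ℝ => x ^ 2 * Real.exp (θ * x)) :=
    (measurable_id.pow_const 2).mul (Real.measurable_exp.comp (measurable_const.mul measurable_id))
  have hC1 := Real.exp_pos |θ|
  have hC2 : 0 ≤ 2 / ε ^ 2 := by positivity
  refine Ckx_dom ν h θ ε hfin _ hme.aestronglyMeasurable (Real.exp |θ| + 2 / ε ^ 2) (by linarith) ?_ ?_
  · intro x hx
    have h0 : 0 ≤ x ^ 2 * Real.exp (θ * x) := mul_nonneg (sq_nonneg x) (Real.exp_pos _).le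
    rw [Real.norm_eq_abs, abs_of_nonneg h0, mul_comm]
    refine mul_le_mul_of_nonneg_right ?_ (sq_nonneg x)
    have := Ckx_exp_le θ x hx
    linarith
  · intro x hx
    have h0 : 0 ≤ x ^ 2 * Real.exp (θ * x) := mul_nonneg (sq_nonneg x) (Real.exp_pos _).le
    rw [Real.norm_eq_abs, abs_of_nonneg h0]
    have h1 := Real.quadratic_le_exp_of_nonneg (mul_nonneg hε.le (abs_nonneg x))
    have h2 : x ^ 2 ≤ 2 / ε ^ 2 * Real.exp (ε * |x|) := by
      have h3 : ε ^ 2 * x ^ 2 ≤ 2 * Real.exp (ε * |x|) := by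
        have h4 : (ε * |x|) ^ 2 = ε ^ 2 * x ^ 2 := by rw [mul_pow, sq_abs]
        have h5 := mul_nonneg hε.le (abs_nonneg x)
        nlinarith
      rw [div_mul_eq_mul_div, le_div_iff₀ (by positivity)]
      linarith
    have h3 := Real.exp_pos (θ * x + ε * |x|)
    calc x ^ 2 * Real.exp (θ * x) ≤ 2 / ε ^ 2 * Real.exp (ε * |x|) * Real.exp (θ * x) :=
          mul_le_mul_of_nonneg_right h2 (Real.exp_pos _).le
      _ = 2 / ε ^ 2 * Real.exp (θ * x + ε * |x|) := by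
          rw [Real.exp_add]
          ring
      _ ≤ (Real.exp |θ| + 2 / ε ^ 2) * Real.exp (θ * x + ε * |x|) + (Real.exp |θ| + 2 / ε ^ 2) := by
          have h4 := mul_pos hC1 h3
          linarith

theorem int_tilt_cos (ν : Measure ℝ) (h : IsLevy ν) (θ t : ℝ) (hd : InDom ν θ) :
    Integrable (fun x => (1 - Real.cos (t * x)) * Real.exp (θ * x)) ν := by
  obtain ⟨ε, hε, hfin⟩ := hd
  have hme : Measurable (fun x : ℝ => (1 - Real.cos (t * x)) * Real.exp (θ * x)) :=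
    (measurable_const.sub (Real.measurable_cos.comp (measurable_const.mul measurable_id))).mul
      (Real.measurable_exp.comp (measurable_const.mul measurable_id))
  have hC1 := Real.exp_pos |θ|
  have hC2 : 0 ≤ t ^ 2 / 2 * Real.exp |θ| := by positivity
  have hcos : ∀ x : ℝ, 0 ≤ 1 - Real.cos (t * x) := fun x => by linarith [Real.cos_le_one (t * x)]
  refine Ckx_dom ν h θ ε hfin _ hme.aestronglyMeasurable (t ^ 2 / 2 * Real.exp |θ| + 2) (by linarith) ?_ ?_
  · intro x hx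
    rw [Real.norm_eq_abs, abs_of_nonneg (mul_nonneg (hcos x) (Real.exp_pos _).le)]
    have h1 : 1 - Real.cos (t * x) ≤ t ^ 2 / 2 * x ^ 2 := by
      have := Real.one_sub_sq_div_two_le_cos (x := t * x)
      nlinarith
    have h2 := Ckx_exp_le θ x hx
    calc (1 - Real.cos (t * x)) * Real.exp (θ * x) ≤ t ^ 2 / 2 * x ^ 2 * Real.exp |θ| :=
          mul_le_mul h1 h2 (Real.exp_pos _).le (by positivity)
      _ = (t ^ 2 / 2 * Real.exp |θ|) * x ^ 2 := by ring
      _ ≤ (t ^ 2 / 2 * Real.exp |θ| + 2) * x ^ 2 := mul_le_mul_of_nonneg_right (by linarith) (sq_nonneg x)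
  · intro x hx
    rw [Real.norm_eq_abs, abs_of_nonneg (mul_nonneg (hcos x) (Real.exp_pos _).le)]
    have h1 : 1 - Real.cos (t * x) ≤ 2 := by linarith [Real.neg_one_le_cos (t * x)]
    have h2 : Real.exp (θ * x) ≤ Real.exp (θ * x + ε * |x|) :=
      Real.exp_le_exp.2 (le_add_of_nonneg_right (mul_nonneg hε.le (abs_nonneg x)))
    have h3 := Real.exp_pos (θ * x + ε * |x|)
    have h4 : 0 ≤ t ^ 2 / 2 * Real.exp |θ| * Real.exp (θ * x + ε * |x|) := mul_nonneg hC2 h3.le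
    calc (1 - Real.cos (t * x)) * Real.exp (θ * x) ≤ 2 * Real.exp (θ * x + ε * |x|) :=
          mul_le_mul h1 h2 (Real.exp_pos _).le (by norm_num)
      _ ≤ (t ^ 2 / 2 * Real.exp |θ| + 2) * Real.exp (θ * x + ε * |x|) + (t ^ 2 / 2 * Real.exp |θ| + 2) := by
          linarith

theorem psi_mod (g s2 : ℝ) (ν : Measure ℝ) (h : IsLevy ν) (θ t : ℝ) (hd : InDom ν θ) :
    ‖Complex.exp (psiC g s2 ν (θ + t * Complex.I))‖ =
      ‖Complex.exp (psiC g s2 ν θ)‖ * Real.exp (-(Psi s2 ν θ t)) := by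
  have hi1 := ckx_int ν h θ t hd
  have hi0 : Integrable (ckx (θ : ℂ)) ν := by
    have h1 := ckx_int ν h θ 0 hd
    rw [Complex.ofReal_zero, zero_mul, add_zero] at h1
    exact h1
  have hpt : ∀ x : ℝ, (ckx (θ + t * Complex.I) x).re =
      (ckx (θ : ℂ) x).re - (1 - Real.cos (t * x)) * Real.exp (θ * x) := by
    intro x
    have e1 : ((θ + t * Complex.I) * (x : ℂ)) = ((θ * x : ℝ) : ℂ) + ((t * x : ℝ) : ℂ) * Complex.I := by
      push_cast
      ring
    have e2 : ((θ : ℂ) * (x : ℂ)) = ((θ * x : ℝ) : ℂ) := by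
      push_cast
      ring
    have e3 : (Complex.exp (((θ * x : ℝ) : ℂ) + ((t * x : ℝ) : ℂ) * Complex.I)).re =
        Real.exp (θ * x) * Real.cos (t * x) := by
      rw [Complex.exp_re]
      simp
    have e4 : (Complex.exp ((θ * x : ℝ) : ℂ)).re = Real.exp (θ * x) := Complex.exp_ofReal_re _
    have e5 : (((θ * x : ℝ) : ℂ) + ((t * x : ℝ) : ℂ) * Complex.I).re = θ * x := by simp
    have e6 : (((θ * x : ℝ) : ℂ)).re = θ * x := Complex.ofReal_re _
    unfold ckx
    rw [e1, e2]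
    by_cases hx : |x| < 1
    · rw [if_pos hx, if_pos hx, Complex.sub_re, Complex.sub_re, Complex.sub_re, Complex.sub_re, e3, e4, e5, e6]
      ring
    · rw [if_neg hx, if_neg hx, Complex.sub_re, Complex.sub_re, Complex.sub_re, Complex.sub_re, e3, e4]
      ring
  have hre1 : (∫ x, ckx (θ + t * Complex.I) x ∂ν).re = ∫ x, (ckx (θ + t * Complex.I) x).re ∂ν :=
    (integral_re hi1).symm
  have hre0 : (∫ x, ckx (θ : ℂ) x ∂ν).re = ∫ x, (ckx (θ : ℂ) x).re ∂ν := (integral_re hi0).symm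
  have hsub : ∫ x, (ckx (θ + t * Complex.I) x).re ∂ν = ∫ x, (ckx (θ : ℂ) x).re ∂ν -
      ∫ x, (1 - Real.cos (t * x)) * Real.exp (θ * x) ∂ν := by
    have hr0 : Integrable (fun x => (ckx (θ : ℂ) x).re) ν := hi0.re
    rw [← integral_sub hr0 (int_tilt_cos ν h θ t hd)]
    exact integral_congr_ae (ae_of_all _ hpt)
  have hz1 : ((g : ℂ) * (θ + t * Complex.I)).re = g * θ := by simp
  have hz2 : ((s2 : ℂ) * (θ + t * Complex.I) ^ 2 / 2).re = s2 * θ ^ 2 / 2 - s2 * t ^ 2 / 2 := by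
    have h1 : ((s2 : ℂ) * (θ + t * Complex.I) ^ 2 / 2) =
        ((s2 * θ ^ 2 / 2 - s2 * t ^ 2 / 2 : ℝ) : ℂ) + ((s2 * θ * t : ℝ) : ℂ) * Complex.I := by
      push_cast
      linear_combination (s2 : ℂ) * t ^ 2 / 2 * Complex.I_sq
    rw [h1, Complex.add_re, Complex.ofReal_re, Complex.re_ofReal_mul, Complex.I_re, mul_zero, add_zero]
  have hz3 : ((g : ℂ) * (θ : ℂ)).re = g * θ := by simp
  have hz4 : ((s2 : ℂ) * (θ : ℂ) ^ 2 / 2).re = s2 * θ ^ 2 / 2 := by
    have h1 : ((s2 : ℂ) * (θ : ℂ) ^ 2 / 2) = ((s2 * θ ^ 2 / 2 : ℝ) : ℂ) := by push_cast; ring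
    rw [h1, Complex.ofReal_re]
  rw [Complex.norm_exp, Complex.norm_exp, ← Real.exp_add]
  congr 1
  unfold psiC Psi
  rw [Complex.add_re, Complex.add_re, Complex.add_re, Complex.add_re, hre1, hre0, hsub, hz1, hz2, hz3, hz4]
  ring

end Pool.Agent.Lib.MP_a80c92_pr
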