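import Pool.Agent.Lib.MP_a80c92_pr.N.CPx
import Pool.Agent.Lib.MP_a80c92_pr.N.Ckx

/-! # JOB N/CxA: complex exponential moments of the approximating laws

PROOF. `X_n = Yapp g s2 ν n ∗ CP (ν.restrict (Ioi 1))`, `z = θ + it`, `c x = e^{zx}`. The integral of
`e^{zx}` over a convolution is the product (`integral_conv` with integrability: first
`∫⁻ ‖e^{zx}‖ = ∫⁻ e^{θx}` is multiplicative, see `expup_mul` in ExpUp.lean for the pattern). Dirac:
`e^{z g_n}`; Gaussian: `e^{s2 z²/2}` (Mathlib: `complexMGF_id_gaussianReal`,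
`integrable_cexp_mul_gaussianReal` or norm bound by `integrable_exp_mul_gaussianReal`); the two
compound Poisson factors by `integral_CP_cx` (`int_A` gives integrability). Combine the exponents as
in `app_exponent` of App.lean (complete there for `z = it`):
`z g_n + ∫_{An ∩ Iic 1} (e^{zx}-1) + ∫_{Ioi 1} (e^{zx} - 1) = g z + ∫_{An n} ckx z dν`. -/

open MeasureTheory Set Filter Topology ProbabilityTheory
open scoped ENNReal NNReal

namespace Pool.Agent.Lib.MP_a80c92_pr

private theorem CxA_add (z : ℂ) (x y : ℝ) :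
    Complex.exp (z * ((x + y : ℝ) : ℂ)) = Complex.exp (z * x) * Complex.exp (z * y) := by
  rw [← Complex.exp_add]
  push_cast
  congr 1
  ring

private theorem CxA_norm (z : ℂ) (x : ℝ) : ‖Complex.exp (z * x)‖ = Real.exp (z.re * x) := by
  rw [Complex.norm_exp, Complex.mul_re, Complex.ofReal_re, Complex.ofReal_im, mul_zero, sub_zero]

private theorem CxA_conv (Y Z : Measure ℝ) [SFinite Y] [SFinite Z] (z : ℂ)
    (hY : Integrable (fun x : ℝ => Complex.exp (z * x)) Y) (hZ : Integrable (fun x : ℝ => Complex.exp (z * x)) Z) :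
    Integrable (fun x : ℝ => Complex.exp (z * x)) (Y ∗ Z) ∧
      ∫ x : ℝ, Complex.exp (z * x) ∂(Y ∗ Z) = (∫ x : ℝ, Complex.exp (z * x) ∂Y) * ∫ x : ℝ, Complex.exp (z * x) ∂Z := by
  have hm : AEStronglyMeasurable (fun x : ℝ => Complex.exp (z * x))
      (Measure.map (fun x : ℝ × ℝ => x.1 + x.2) (Y.prod Z)) :=
    Continuous.aestronglyMeasurable (by fun_prop)
  have ha : AEMeasurable (fun x : ℝ × ℝ => x.1 + x.2) (Y.prod Z) := Measurable.aemeasurable (by fun_prop)
  have he : (fun x : ℝ × ℝ => Complex.exp (z * ((x.1 + x.2 : ℝ) : ℂ))) =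
      fun x : ℝ × ℝ => Complex.exp (z * x.1) * Complex.exp (z * x.2) := by
    funext x
    exact CxA_add z x.1 x.2
  unfold Measure.conv
  constructor
  · rw [integrable_map_measure hm ha]
    have h1 := hY.mul_prod hZ
    refine h1.congr (Eventually.of_forall fun x => ?_)
    exact (CxA_add z x.1 x.2).symm
  · rw [integral_map ha hm, he]
    exact integral_prod_mul (fun x : ℝ => Complex.exp (z * x)) (fun x : ℝ => Complex.exp (z * x))

private theorem CxA_gauss (v : ℝ≥0) (z : ℂ) :
    Integrable (fun x : ℝ => Complex.exp (z * x)) (gaussianReal 0 v) ∧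
      ∫ x : ℝ, Complex.exp (z * x) ∂(gaussianReal 0 v) = Complex.exp (v * z ^ 2 / 2) := by
  constructor
  · have h1 := integrable_exp_mul_gaussianReal (μ := 0) (v := v) z.re
    refine h1.mono' (Continuous.aestronglyMeasurable (by fun_prop)) (Eventually.of_forall fun x => ?_)
    exact (CxA_norm z x).le
  · have h1 := complexMGF_id_gaussianReal (μ := 0) (v := v) z
    unfold complexMGF at h1
    simp only [id, Complex.ofReal_zero, mul_zero, zero_add] at h1
    exact h1

private theorem CxA_exponent (g : ℝ) (ν : Measure ℝ) (h : IsLevy ν) (n : ℕ) (z : ℂ)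
    (hi0 : IntegrableOn (fun x : ℝ => Complex.exp (z * x)) (An n) ν) :
    ((gn g ν n : ℝ) : ℂ) * z +
      ((∫ x in An n ∩ Iic 1, (Complex.exp (z * x) - 1) ∂ν) + ∫ x in Ioi (1 : ℝ), (Complex.exp (z * x) - 1) ∂ν) =
      g * z + ∫ x in An n, ckx z x ∂ν := by
  have hA := measurableSet_An n
  have hAf := measure_An_lt_top ν h n
  have hfin : IsFiniteMeasure (ν.restrict (An n)) := ⟨by rwa [Measure.restrict_apply_univ]⟩
  have hi : IntegrableOn (fun x : ℝ => Complex.exp (z * x) - 1) (An n) ν := hi0.sub (integrable_const 1)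
  have hset : An n = (An n ∩ Iic 1) ∪ Ioi 1 := by
    ext x
    simp only [mem_union, mem_inter_iff, mem_Iic, mem_Ioi]
    constructor
    · intro hx
      rcases le_or_gt x 1 with h1 | h1
      · exact Or.inl ⟨hx, h1⟩
      · exact Or.inr h1
    · rintro (hx | hx)
      · exact hx.1
      · exact Ioi_sub_An n hx
  have h1 : (∫ x in An n ∩ Iic 1, (Complex.exp (z * x) - 1) ∂ν) +
      ∫ x in Ioi (1 : ℝ), (Complex.exp (z * x) - 1) ∂ν =
      ∫ x in An n, (Complex.exp (z * x) - 1) ∂ν := by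
    rw [← setIntegral_union _ measurableSet_Ioi (hi.mono_set inter_subset_left)
      (hi.mono_set (Ioi_sub_An n)), ← hset]
    rw [Set.disjoint_left]
    rintro x ⟨_, hx⟩ hx'
    have h1 : x ≤ 1 := hx
    have h2 : 1 < x := hx'
    exact absurd h1 (not_le.2 h2)
  have hB : MeasurableSet {x : ℝ | |x| < 1} := measurableSet_lt measurable_id.abs measurable_const
  have hi2 : IntegrableOn (fun x : ℝ => if |x| < 1 then z * (x : ℂ) else 0)
      (An n) ν := by
    have hm : Measurable (fun x : ℝ => if |x| < 1 then z * (x : ℂ) else 0) :=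
      Measurable.ite hB (by fun_prop) measurable_const
    refine (integrable_const (‖z‖)).mono' hm.aestronglyMeasurable
      (Filter.Eventually.of_forall fun x => ?_)
    split_ifs with hx
    · rw [norm_mul, Complex.norm_real, Real.norm_eq_abs]
      exact mul_le_of_le_one_right (norm_nonneg z) hx.le
    · simp
  have h2 : ∫ x in An n, ckx z x ∂ν = (∫ x in An n, (Complex.exp (z * x) - 1) ∂ν) -
      ∫ x in An n, (if |x| < 1 then z * (x : ℂ) else 0) ∂ν := by
    rw [← integral_sub hi hi2]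
    rfl
  have h3 : ∫ x in An n, (if |x| < 1 then z * (x : ℂ) else 0) ∂ν =
      ((∫ x in An n ∩ {x : ℝ | |x| < 1}, x ∂ν : ℝ) : ℂ) * z := by
    have e : (fun x : ℝ => if |x| < 1 then z * (x : ℂ) else 0) =
        Set.indicator {x : ℝ | |x| < 1} (fun x : ℝ => z * (x : ℂ)) := by
      funext x
      by_cases hx : |x| < 1
      · rw [if_pos hx, Set.indicator_of_mem (by exact hx)]
      · rw [if_neg hx, Set.indicator_of_notMem (by exact hx)]
    rw [e, setIntegral_indicator hB, integral_const_mul]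
    rw [integral_complex_ofReal]
    ring
  rw [h1, h2, h3]
  unfold gn
  push_cast
  ring

theorem cx_app (g s2 : ℝ) (hs2 : 0 ≤ s2) (ν : Measure ℝ) (h : IsLevy ν) (θ t : ℝ)
    (hd : InDom ν θ) (n : ℕ) :
    Integrable (fun x : ℝ => Complex.exp ((θ + t * Complex.I) * x))
        (Yapp g s2 ν n ∗ CP (ν.restrict (Ioi 1))) ∧
      ∫ x : ℝ, Complex.exp ((θ + t * Complex.I) * x)
        ∂(Yapp g s2 ν n ∗ CP (ν.restrict (Ioi 1))) =
      Complex.exp (g * (θ + t * Complex.I) + s2 * (θ + t * Complex.I) ^ 2 / 2 +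
        ∫ x in An n, ckx (θ + t * Complex.I) x ∂ν) := by
  obtain ⟨z, hz⟩ : ∃ z : ℂ, z = θ + t * Complex.I := ⟨_, rfl⟩
  rw [← hz]
  have hre : z.re = θ := by
    rw [hz]
    simp
  have i1 := isFinite_r1 ν h n
  have i2 := isFinite_r2 ν h
  have iY := isProb_Yapp g s2 ν h n
  have hi0 : IntegrableOn (fun x : ℝ => Complex.exp (z * x)) (An n) ν := by
    refine (int_A ν h θ hd n).mono' (Continuous.aestronglyMeasurable (by fun_prop))
      (Eventually.of_forall fun x => ?_)
    rw [CxA_norm, hre]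
  have e1 : Integrable (fun x : ℝ => Complex.exp (z * x)) (ν.restrict (An n ∩ Iic 1)) :=
    hi0.mono_set inter_subset_left
  have e2 : Integrable (fun x : ℝ => Complex.exp (z * x)) (ν.restrict (Ioi 1)) := hi0.mono_set (Ioi_sub_An n)
  have hm : Measurable fun x : ℝ => Complex.exp (z * x) := by fun_prop
  obtain ⟨c1, c1'⟩ := integral_CP_cx (ν.restrict (An n ∩ Iic 1)) (fun x : ℝ => Complex.exp (z * x)) hm (by simp)
    (CxA_add z) e1
  obtain ⟨c2, c2'⟩ := integral_CP_cx (ν.restrict (Ioi 1)) (fun x : ℝ => Complex.exp (z * x)) hm (by simp)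
    (CxA_add z) e2
  obtain ⟨c3, c3'⟩ := CxA_gauss (Real.toNNReal s2) z
  obtain ⟨c4, c4'⟩ := CxA_conv (gaussianReal 0 (Real.toNNReal s2)) (CP (ν.restrict (An n ∩ Iic 1))) z c3 c1
  have c5 : Integrable (fun x : ℝ => Complex.exp (z * x)) (Measure.dirac (gn g ν n)) :=
    integrable_dirac (by simp)
  obtain ⟨c6, c6'⟩ := CxA_conv (Measure.dirac (gn g ν n)) _ z c5 c4
  obtain ⟨c7, c7'⟩ := CxA_conv (Yapp g s2 ν n) (CP (ν.restrict (Ioi 1))) z c6 c2
  refine ⟨c7, ?_⟩
  rw [c7']
  have c8 : ∫ x : ℝ, Complex.exp (z * x) ∂(Yapp g s2 ν n) = _ := c6'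
  rw [c8, c4', c3', c1', c2', integral_dirac, ← Complex.exp_add, ← Complex.exp_add, ← Complex.exp_add]
  congr 1
  have key := CxA_exponent g ν h n z hi0
  rw [Real.coe_toNNReal s2 hs2]
  linear_combination key

end Pool.Agent.Lib.MP_a80c92_pr
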