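import Pool.Agent.Lib.MP_a80c92_pr.N.CxA
import Pool.Agent.Lib.MP_a80c92_pr.LimA

/-! # JOB N/CxB: complex exponential moments of the law

PROOF. `X_n → μ` (`tendsto_app`), `z = θ + it`. `InDom ν θ'` holds for `θ' = θ ± ε/2` with the same
`ν` and `ε/2` in place of `ε` (`±(ε/2) x + (ε/2)|x| ≤ ε|x|`). By `cx_app` (`t = 0`) for `θ' = θ ± ε/2`
the numbers `∫ e^{θ'x} dX_n` are bounded in `n` (they are `exp` of a convergent sequence:
`∫_{An n} ckx → ∫ ckx`, `tendsto_setIntegral_of_monotone`, `An_mono`, `iUnion_An`, as at the end of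
App.lean). Hence `∫ e^{θx} e^{(ε/2)|x|} dX_n ≤ B` for all `n`, and by `lintegral_le_of_charFun` the same
for `μ`: so `e^{θx}` is integrable for `μ`. For `K > 0` let `χ_K x = max 0 (min 1 (K+1-|x|))`
(continuous, `1` on `|x| ≤ K`, `0` for `|x| ≥ K+1`). `∫ e^{zx} χ_K dX_n → ∫ e^{zx} χ_K dμ`
(`tendsto_integral_of_charFun` for the real and the imaginary part, bounded continuous), and
`|∫ e^{zx} (1-χ_K) dX_n| ≤ ∫_{|x|>K} e^{θx} dX_n ≤ e^{-εK/2} B`, the same for `μ`. So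
`∫ e^{zx} dX_n → ∫ e^{zx} dμ`; the left side is `exp (g z + s2 z²/2 + ∫_{An n} ckx) → exp (psiC z)`. -/

open MeasureTheory Set Filter Topology ProbabilityTheory
open scoped ENNReal NNReal

namespace Pool.Agent.Lib.MP_a80c92_pr

/-- The cutoff function. -/
private noncomputable def CxB_chi (K : ℕ) (x : ℝ) : ℝ := max 0 (min 1 ((K : ℝ) + 1 - |x|))

private theorem CxB_chi_cont (K : ℕ) : Continuous (CxB_chi K) := by
  unfold CxB_chi
  fun_prop

private theorem CxB_chi_nonneg (K : ℕ) (x : ℝ) : 0 ≤ CxB_chi K x := le_max_left _ _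

private theorem CxB_chi_le (K : ℕ) (x : ℝ) : CxB_chi K x ≤ 1 :=
  max_le zero_le_one (min_le_left _ _)

private theorem CxB_chi_one (K : ℕ) (x : ℝ) (hx : |x| ≤ K) : CxB_chi K x = 1 := by
  unfold CxB_chi
  rw [min_eq_left (by linarith), max_eq_right zero_le_one]

private theorem CxB_chi_zero (K : ℕ) (x : ℝ) (hx : (K : ℝ) + 1 ≤ |x|) : CxB_chi K x = 0 := by
  unfold CxB_chi
  exact max_eq_left ((min_le_right _ _).trans (by linarith))

/-- The tail estimate, pointwise. -/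
private theorem CxB_tail_pt (f G : ℝ → ℝ) (c : ℝ) (hc : 0 < c)
    (hG0 : ∀ x, 0 ≤ G x)
    (hfG : ∀ x, |f x| ≤ Real.exp (-(c * |x|)) * G x) (K : ℕ) (x : ℝ) :
    |f x - f x * CxB_chi K x| ≤ Real.exp (-(c * K)) * G x := by
  rcases le_or_gt |x| (K : ℝ) with hx | hx
  · rw [CxB_chi_one K x hx, mul_one, sub_self, abs_zero]
    exact mul_nonneg (Real.exp_nonneg _) (hG0 x)
  · have h1 : f x - f x * CxB_chi K x = f x * (1 - CxB_chi K x) := by ring
    have h2 : |1 - CxB_chi K x| ≤ 1 := by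
      rw [abs_le]
      have := CxB_chi_nonneg K x
      have := CxB_chi_le K x
      constructor <;> linarith
    rw [h1, abs_mul]
    calc |f x| * |1 - CxB_chi K x| ≤ |f x| * 1 := by gcongr
      _ = |f x| := mul_one _
      _ ≤ Real.exp (-(c * |x|)) * G x := hfG x
      _ ≤ Real.exp (-(c * K)) * G x := by
          refine mul_le_mul_of_nonneg_right (Real.exp_le_exp.2 ?_) (hG0 x)
          nlinarith

/-- Integrability of a continuous nonnegative function from a bound of its integral. -/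
private theorem CxB_intG (ρ : Measure ℝ) (G : ℝ → ℝ) (hG : Continuous G) (hG0 : ∀ x, 0 ≤ G x)
    (B : ℝ) (hB : ∫⁻ x, ENNReal.ofReal (G x) ∂ρ ≤ ENNReal.ofReal B) :
    Integrable G ρ := by
  refine ⟨hG.aestronglyMeasurable, ?_⟩
  rw [hasFiniteIntegral_iff_ofReal (ae_of_all _ hG0)]
  exact hB.trans_lt ENNReal.ofReal_lt_top

/-- Integrability of a function dominated by `e^{-c|x|} G`. -/
private theorem CxB_intf (ρ : Measure ℝ) (f G : ℝ → ℝ) (c : ℝ) (hc : 0 < c) (hf : Continuous f)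
    (hG0 : ∀ x, 0 ≤ G x) (hGi : Integrable G ρ)
    (hfG : ∀ x, |f x| ≤ Real.exp (-(c * |x|)) * G x) :
    Integrable f ρ := by
  refine hGi.mono' hf.aestronglyMeasurable (ae_of_all _ fun x => ?_)
  rw [Real.norm_eq_abs]
  refine (hfG x).trans ?_
  refine mul_le_of_le_one_left (hG0 x) (Real.exp_le_one_iff.2 ?_)
  have := abs_nonneg x
  nlinarith

/-- The tail estimate. -/
private theorem CxB_tail (ρ : Measure ℝ) (f G : ℝ → ℝ) (c : ℝ) (hc : 0 < c) (hf : Continuous f)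
    (hG : Continuous G) (hG0 : ∀ x, 0 ≤ G x)
    (hfG : ∀ x, |f x| ≤ Real.exp (-(c * |x|)) * G x)
    (B : ℝ) (hB0 : 0 ≤ B) (hB : ∫⁻ x, ENNReal.ofReal (G x) ∂ρ ≤ ENNReal.ofReal B) (K : ℕ) :
    |∫ x, f x ∂ρ - ∫ x, f x * CxB_chi K x ∂ρ| ≤ Real.exp (-(c * K)) * B := by
  have hGi := CxB_intG ρ G hG hG0 B hB
  have hfi := CxB_intf ρ f G c hc hf hG0 hGi hfG
  have hci : Integrable (fun x => f x * CxB_chi K x) ρ := by
    refine hfi.mono (hf.mul (CxB_chi_cont K)).aestronglyMeasurable (ae_of_all _ fun x => ?_)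
    rw [Real.norm_eq_abs, Real.norm_eq_abs, abs_mul, abs_of_nonneg (CxB_chi_nonneg K x)]
    exact mul_le_of_le_one_right (abs_nonneg _) (CxB_chi_le K x)
  have hGB : ∫ x, G x ∂ρ ≤ B := by
    have h1 := ofReal_integral_eq_lintegral_ofReal hGi (ae_of_all _ hG0)
    rw [← h1] at hB
    exact (ENNReal.ofReal_le_ofReal_iff hB0).1 hB
  rw [← integral_sub hfi hci]
  calc |∫ x, (f x - f x * CxB_chi K x) ∂ρ| ≤ ∫ x, |f x - f x * CxB_chi K x| ∂ρ :=
        abs_integral_le_integral_abs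
    _ ≤ ∫ x, Real.exp (-(c * K)) * G x ∂ρ := by
        refine integral_mono (hfi.sub hci).abs (hGi.const_mul _) fun x => ?_
        exact CxB_tail_pt f G c hc hG0 hfG K x
    _ = Real.exp (-(c * K)) * ∫ x, G x ∂ρ := integral_const_mul _ _
    _ ≤ Real.exp (-(c * K)) * B := by gcongr

private theorem CxB_bdd (f : ℝ → ℝ) (hf : Continuous f) (K : ℕ) :
    ∃ C : ℝ, ∀ x, |f x * CxB_chi K x| ≤ C := by
  have h1 : HasCompactSupport (fun x => f x * CxB_chi K x) := by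
    refine HasCompactSupport.intro (isCompact_Icc (a := -((K : ℝ) + 1)) (b := (K : ℝ) + 1))
      fun x hx => ?_
    rw [CxB_chi_zero K x ?_, mul_zero]
    by_contra hcon
    push Not at hcon
    have := abs_le.1 hcon.le
    exact hx ⟨this.1, this.2⟩
  obtain ⟨C, hC⟩ := (hf.mul (CxB_chi_cont K)).bounded_above_of_compact_support h1
  exact ⟨C, fun x => by simpa [Real.norm_eq_abs] using hC x⟩

/-- Convergence of integrals of continuous functions dominated by `e^{-c|x|} G`. -/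
private theorem CxB_conv (μs : ℕ → Measure ℝ) (μ : Measure ℝ) [∀ n, IsProbabilityMeasure (μs n)]
    [IsProbabilityMeasure μ]
    (h : ∀ t : ℝ, Tendsto (fun n => charFun (μs n) t) atTop (𝓝 (charFun μ t)))
    (f G : ℝ → ℝ) (c : ℝ) (hc : 0 < c) (hf : Continuous f) (hG : Continuous G)
    (hG0 : ∀ x, 0 ≤ G x) (hfG : ∀ x, |f x| ≤ Real.exp (-(c * |x|)) * G x)
    (B : ℝ) (hB0 : 0 ≤ B) (hB : ∀ n, ∫⁻ x, ENNReal.ofReal (G x) ∂(μs n) ≤ ENNReal.ofReal B) :
    Integrable f μ ∧ Tendsto (fun n => ∫ x, f x ∂(μs n)) atTop (𝓝 (∫ x, f x ∂μ)) := by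
  have hBμ : ∫⁻ x, ENNReal.ofReal (G x) ∂μ ≤ ENNReal.ofReal B :=
    lintegral_le_of_charFun μs μ h G hG hG0 (fun _ => B) B hB tendsto_const_nhds
  refine ⟨CxB_intf μ f G c hc hf hG0 (CxB_intG μ G hG hG0 B hBμ) hfG, ?_⟩
  rw [Metric.tendsto_atTop]
  intro δ hδ
  have hKlim : Tendsto (fun K : ℕ => Real.exp (-(c * K)) * B) atTop (𝓝 0) := by
    have h1 : Tendsto (fun K : ℕ => c * (K : ℝ)) atTop atTop :=
      Tendsto.const_mul_atTop hc tendsto_natCast_atTop_atTop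
    have h2 := (Real.tendsto_exp_neg_atTop_nhds_zero.comp h1).mul_const B
    rw [zero_mul] at h2
    exact h2
  obtain ⟨K, hK⟩ := (hKlim.eventually (gt_mem_nhds (show (0 : ℝ) < δ / 3 by linarith))).exists
  obtain ⟨C, hC⟩ := CxB_bdd f hf K
  have h3 := tendsto_integral_of_charFun μs μ h (fun x => f x * CxB_chi K x)
    (hf.mul (CxB_chi_cont K)) C hC
  obtain ⟨N, hN⟩ := (Metric.tendsto_atTop.1 h3) (δ / 3) (by linarith)
  refine ⟨N, fun n hn => ?_⟩
  have h4 := hN n hn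
  have h5 := CxB_tail (μs n) f G c hc hf hG hG0 hfG B hB0 (hB n) K
  have h6 := CxB_tail μ f G c hc hf hG hG0 hfG B hB0 hBμ K
  rw [Real.dist_eq] at h4 ⊢
  have e : ∫ x, f x ∂(μs n) - ∫ x, f x ∂μ =
      (∫ x, f x ∂(μs n) - ∫ x, f x * CxB_chi K x ∂(μs n)) +
      (∫ x, f x * CxB_chi K x ∂(μs n) - ∫ x, f x * CxB_chi K x ∂μ) -
      (∫ x, f x ∂μ - ∫ x, f x * CxB_chi K x ∂μ) := by ring
  rw [e]
  rw [abs_lt] at h4 ⊢
  rw [abs_le] at h5 h6
  constructor <;> linarith [h4.1, h4.2, h5.1, h5.2, h6.1, h6.2]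

private theorem CxB_lim (g s2 : ℝ) (ν : Measure ℝ) (h : IsLevy ν) (θ t : ℝ) (hd : InDom ν θ) :
    Tendsto (fun n => Complex.exp (g * (θ + t * Complex.I) + s2 * (θ + t * Complex.I) ^ 2 / 2 +
        ∫ x in An n, ckx (θ + t * Complex.I) x ∂ν)) atTop
      (𝓝 (Complex.exp (psiC g s2 ν (θ + t * Complex.I)))) := by
  have hi := ckx_int ν h θ t hd
  have h1 : Tendsto (fun n => ∫ x in An n, ckx (θ + t * Complex.I) x ∂ν) atTop
      (𝓝 (∫ x, ckx (θ + t * Complex.I) x ∂ν)) := by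
    have h2 := tendsto_setIntegral_of_monotone (μ := ν) (f := ckx (θ + t * Complex.I))
      measurableSet_An An_mono hi.integrableOn
    rw [iUnion_An] at h2
    have h3 : ∫ x in {(0 : ℝ)}ᶜ, ckx (θ + t * Complex.I) x ∂ν =
        ∫ x, ckx (θ + t * Complex.I) x ∂ν := by
      refine setIntegral_eq_integral_of_forall_compl_eq_zero fun x hx => ?_
      have : x = 0 := by simpa using hx
      rw [this]; simp [ckx]
    rwa [h3] at h2
  exact (Complex.continuous_exp.tendsto _).comp (tendsto_const_nhds.add h1)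

private theorem CxB_isProb (g s2 : ℝ) (ν : Measure ℝ) (h : IsLevy ν) (n : ℕ) :
    IsProbabilityMeasure (Yapp g s2 ν n ∗ CP (ν.restrict (Ioi 1))) := by
  have i1 := isProb_Yapp g s2 ν h n
  have i2 := isFinite_r2 ν h
  infer_instance

private theorem CxB_bd (g s2 : ℝ) (hs2 : 0 ≤ s2) (ν : Measure ℝ) (h : IsLevy ν) (θ : ℝ)
    (hd : InDom ν θ) :
    ∃ B : ℝ, 0 ≤ B ∧ ∀ n, ∫⁻ x, ENNReal.ofReal (Real.exp (θ * x))
      ∂(Yapp g s2 ν n ∗ CP (ν.restrict (Ioi 1))) ≤ ENNReal.ofReal B := by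
  have h1 := (CxB_lim g s2 ν h θ 0 hd).norm
  obtain ⟨B, hB⟩ := h1.bddAbove_range
  refine ⟨max B 0, le_max_right _ _, fun n => ?_⟩
  obtain ⟨h2, h3⟩ := cx_app g s2 hs2 ν h θ 0 hd n
  have e : ∀ x : ℝ, Complex.exp (((θ : ℂ) + (0 : ℝ) * Complex.I) * x) =
      ((Real.exp (θ * x) : ℝ) : ℂ) := by
    intro x
    push_cast
    congr 1
    ring
  have h4 : Integrable (fun x : ℝ => Real.exp (θ * x))
      (Yapp g s2 ν n ∗ CP (ν.restrict (Ioi 1))) := by
    have h5 := h2.norm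
    refine h5.congr (ae_of_all _ fun x => ?_)
    show ‖Complex.exp (((θ : ℂ) + (0 : ℝ) * Complex.I) * x)‖ = _
    rw [e, Complex.norm_real, Real.norm_eq_abs, abs_of_pos (Real.exp_pos _)]
  rw [← ofReal_integral_eq_lintegral_ofReal h4 (ae_of_all _ fun x => (Real.exp_pos _).le)]
  refine ENNReal.ofReal_le_ofReal (le_trans ?_ (le_max_left _ _))
  have h6 : ((∫ x : ℝ, Real.exp (θ * x) ∂(Yapp g s2 ν n ∗ CP (ν.restrict (Ioi 1))) : ℝ) : ℂ) =
      Complex.exp (g * (θ + (0 : ℝ) * Complex.I) + s2 * (θ + (0 : ℝ) * Complex.I) ^ 2 / 2 +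
        ∫ x in An n, ckx (θ + (0 : ℝ) * Complex.I) x ∂ν) := by
    rw [← h3, ← integral_complex_ofReal]
    exact integral_congr_ae (ae_of_all _ fun x => (e x).symm)
  have h7 : ‖((∫ x : ℝ, Real.exp (θ * x) ∂(Yapp g s2 ν n ∗ CP (ν.restrict (Ioi 1))) : ℝ) : ℂ)‖ ≤
      B := by
    rw [h6]
    exact hB (mem_range_self n)
  rw [Complex.norm_real, Real.norm_eq_abs] at h7
  exact (le_abs_self _).trans h7

private theorem CxB_dom (ν : Measure ℝ) (θ ε : ℝ) (hε : 0 < ε)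
    (h : ∫⁻ x in {x : ℝ | 1 < |x|}, ENNReal.ofReal (Real.exp (θ * x + ε * |x|)) ∂ν < ∞)
    (s : ℝ) (hs : |s| ≤ 1) : InDom ν (θ + s * (ε / 2)) := by
  refine ⟨ε / 2, by linarith, lt_of_le_of_lt (lintegral_mono fun x => ?_) h⟩
  refine ENNReal.ofReal_le_ofReal (Real.exp_le_exp.2 ?_)
  have h1 : s * x ≤ |x| := by
    calc s * x ≤ |s * x| := le_abs_self _
      _ = |s| * |x| := abs_mul _ _
      _ ≤ 1 * |x| := by gcongr
      _ = |x| := one_mul _
  nlinarith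

theorem cx_moment (μ : Measure ℝ) [IsProbabilityMeasure μ] (g s2 : ℝ) (ν : Measure ℝ)
    (h : HasTriple μ g s2 ν) (θ t : ℝ) (hd : InDom ν θ) :
    Integrable (fun x : ℝ => Real.exp (θ * x)) μ ∧
      ∫ x : ℝ, Complex.exp ((θ + t * Complex.I) * x) ∂μ =
        Complex.exp (psiC g s2 ν (θ + t * Complex.I)) := by
  obtain ⟨ε, hε, hdε⟩ := hd
  have hd0 : InDom ν θ := ⟨ε, hε, hdε⟩
  have hdp := CxB_dom ν θ ε hε hdε 1 (by simp)
  have hdm := CxB_dom ν θ ε hε hdε (-1) (by simp)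
  obtain ⟨B1, hB10, hB1⟩ := CxB_bd g s2 h.s2_nonneg ν h.levy _ hdp
  obtain ⟨B2, hB20, hB2⟩ := CxB_bd g s2 h.s2_nonneg ν h.levy _ hdm
  have hc : (0 : ℝ) < ε / 2 := by linarith
  have hprob : ∀ n, IsProbabilityMeasure (Yapp g s2 ν n ∗ CP (ν.restrict (Ioi 1))) :=
    fun n => CxB_isProb g s2 ν h.levy n
  have hcf := fun u : ℝ => tendsto_app μ g s2 ν h u
  have hG : Continuous fun x : ℝ =>
      Real.exp ((θ + 1 * (ε / 2)) * x) + Real.exp ((θ + -1 * (ε / 2)) * x) := by fun_prop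
  have hG0 : ∀ x : ℝ, 0 ≤
      Real.exp ((θ + 1 * (ε / 2)) * x) + Real.exp ((θ + -1 * (ε / 2)) * x) := fun x => by positivity
  have hB : ∀ n, ∫⁻ x, ENNReal.ofReal
      (Real.exp ((θ + 1 * (ε / 2)) * x) + Real.exp ((θ + -1 * (ε / 2)) * x))
      ∂(Yapp g s2 ν n ∗ CP (ν.restrict (Ioi 1))) ≤ ENNReal.ofReal (B1 + B2) := by
    intro n
    rw [ENNReal.ofReal_add hB10 hB20]
    calc _ = ∫⁻ x, (ENNReal.ofReal (Real.exp ((θ + 1 * (ε / 2)) * x)) +
          ENNReal.ofReal (Real.exp ((θ + -1 * (ε / 2)) * x)))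
          ∂(Yapp g s2 ν n ∗ CP (ν.restrict (Ioi 1))) := by
          refine lintegral_congr fun x => ?_
          rw [ENNReal.ofReal_add (Real.exp_pos _).le (Real.exp_pos _).le]
      _ = _ := lintegral_add_left (by fun_prop) _
      _ ≤ _ := add_le_add (hB1 n) (hB2 n)
  have hkey : ∀ x : ℝ, Real.exp (θ * x) ≤ Real.exp (-(ε / 2 * |x|)) *
      (Real.exp ((θ + 1 * (ε / 2)) * x) + Real.exp ((θ + -1 * (ε / 2)) * x)) := by
    intro x
    rw [mul_add, ← Real.exp_add, ← Real.exp_add]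
    rcases le_total 0 x with hx | hx
    · rw [abs_of_nonneg hx]
      have e1 : -(ε / 2 * x) + (θ + 1 * (ε / 2)) * x = θ * x := by ring
      rw [e1]
      linarith [Real.exp_pos (-(ε / 2 * x) + (θ + -1 * (ε / 2)) * x)]
    · rw [abs_of_nonpos hx]
      have e1 : -(ε / 2 * -x) + (θ + -1 * (ε / 2)) * x = θ * x := by ring
      rw [e1]
      linarith [Real.exp_pos (-(ε / 2 * -x) + (θ + 1 * (ε / 2)) * x)]
  have hBB : 0 ≤ B1 + B2 := add_nonneg hB10 hB20
  have hint := (CxB_conv _ μ hcf (fun x : ℝ => Real.exp (θ * x)) _ (ε / 2) hc (by fun_prop) hG hG0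
    (fun x => by rw [abs_of_pos (Real.exp_pos _)]; exact hkey x) (B1 + B2) hBB hB).1
  refine ⟨hint, ?_⟩
  have hre := (CxB_conv _ μ hcf (fun x : ℝ => Real.exp (θ * x) * Real.cos (t * x)) _ (ε / 2) hc
    (by fun_prop) hG hG0
    (fun x => by
      rw [abs_mul, abs_of_pos (Real.exp_pos _)]
      exact (mul_le_of_le_one_right (Real.exp_pos _).le (Real.abs_cos_le_one _)).trans (hkey x))
    (B1 + B2) hBB hB).2
  have him := (CxB_conv _ μ hcf (fun x : ℝ => Real.exp (θ * x) * Real.sin (t * x)) _ (ε / 2) hc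
    (by fun_prop) hG hG0
    (fun x => by
      rw [abs_mul, abs_of_pos (Real.exp_pos _)]
      exact (mul_le_of_le_one_right (Real.exp_pos _).le (Real.abs_sin_le_one _)).trans (hkey x))
    (B1 + B2) hBB hB).2
  have e : ∀ x : ℝ, Complex.exp (((θ : ℂ) + t * Complex.I) * x) =
      ((Real.exp (θ * x) * Real.cos (t * x) : ℝ) : ℂ) +
        ((Real.exp (θ * x) * Real.sin (t * x) : ℝ) : ℂ) * Complex.I := by
    intro x
    have e1 : ((θ : ℂ) + t * Complex.I) * x = ((θ * x : ℝ) : ℂ) + ((t * x : ℝ) : ℂ) * Complex.I := by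
      push_cast; ring
    rw [e1, Complex.exp_add, Complex.exp_mul_I]
    push_cast
    ring
  have hi : ∀ ρ : Measure ℝ, Integrable (fun x : ℝ => Real.exp (θ * x)) ρ →
      ∫ x : ℝ, Complex.exp (((θ : ℂ) + t * Complex.I) * x) ∂ρ =
        ((∫ x, Real.exp (θ * x) * Real.cos (t * x) ∂ρ : ℝ) : ℂ) +
        ((∫ x, Real.exp (θ * x) * Real.sin (t * x) ∂ρ : ℝ) : ℂ) * Complex.I := by
    intro ρ hρ
    have i1 : Integrable (fun x : ℝ => Real.exp (θ * x) * Real.cos (t * x)) ρ := by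
      refine hρ.mono (by fun_prop) (ae_of_all _ fun x => ?_)
      rw [norm_mul]
      exact mul_le_of_le_one_right (norm_nonneg _) (Real.abs_cos_le_one _)
    have i2 : Integrable (fun x : ℝ => Real.exp (θ * x) * Real.sin (t * x)) ρ := by
      refine hρ.mono (by fun_prop) (ae_of_all _ fun x => ?_)
      rw [norm_mul]
      exact mul_le_of_le_one_right (norm_nonneg _) (Real.abs_sin_le_one _)
    rw [← integral_complex_ofReal, ← integral_complex_ofReal, ← integral_mul_const,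
      ← integral_add i1.ofReal (i2.ofReal.mul_const _)]
    exact integral_congr_ae (ae_of_all _ fun x => e x)
  have hIn : ∀ n, Integrable (fun x : ℝ => Real.exp (θ * x))
      (Yapp g s2 ν n ∗ CP (ν.restrict (Ioi 1))) := fun n =>
    CxB_intf _ _ _ (ε / 2) hc (by fun_prop) hG0 (CxB_intG _ _ hG hG0 _ (hB n))
      (fun x => by rw [abs_of_pos (Real.exp_pos _)]; exact hkey x)
  have hlim1 : Tendsto (fun n => ∫ x : ℝ, Complex.exp (((θ : ℂ) + t * Complex.I) * x)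
      ∂(Yapp g s2 ν n ∗ CP (ν.restrict (Ioi 1)))) atTop
      (𝓝 (∫ x : ℝ, Complex.exp (((θ : ℂ) + t * Complex.I) * x) ∂μ)) := by
    rw [hi μ hint]
    have h1 := ((Complex.continuous_ofReal.tendsto _).comp hre).add
      (((Complex.continuous_ofReal.tendsto _).comp him).mul_const Complex.I)
    refine h1.congr fun n => ?_
    rw [hi _ (hIn n)]
    rfl
  have hlim2 := CxB_lim g s2 ν h.levy θ t hd0
  have hlim3 : Tendsto (fun n => ∫ x : ℝ, Complex.exp (((θ : ℂ) + t * Complex.I) * x)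
      ∂(Yapp g s2 ν n ∗ CP (ν.restrict (Ioi 1)))) atTop
      (𝓝 (Complex.exp (psiC g s2 ν (θ + t * Complex.I)))) :=
    hlim2.congr fun n => ((cx_app g s2 h.s2_nonneg ν h.levy θ t hd0 n).2).symm
  exact tendsto_nhds_unique hlim1 hlim3

end Pool.Agent.Lib.MP_a80c92_pr
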