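import Pool.Agent.Lib.MP_a80c92_pr.Defs2

/-! # JOB N/LCc: four point log-concavity implies concavity of the logarithm

PROOF. `u = log f`, continuous. `h.lc x (x+t) t` gives `f x f (x+2t) ≤ f (x+t)²`, so
`u x + u (x+2t) ≤ 2 u (x+t)` for `t > 0`. Let `x < y` and let `L` be affine with `L = u` at `x, y`;
`w = u - L` is continuous, midpoint concave, `w x = w y = 0`. Suppose `w` takes a negative value on
`[x, y]`; let `m < 0` be its minimum on `[x, y]` (compactness) and `z = sInf {z ∈ [x,y] | w z = m}`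
(closed set, attained), `x < z < y`. For small `t > 0`: `m + m ≤ w (z-t) + w (z+t) ≤ 2 w z = 2m`, so
`w (z-t) = m`, contradicting the choice of `z`. So `w ≥ 0`: `ConcaveOn`. -/

open MeasureTheory Set Filter Topology ProbabilityTheory
open scoped ENNReal NNReal

namespace Pool.Agent.Lib.MP_a80c92_pr

/-- A continuous midpoint concave function which vanishes at the ends of an interval is nonnegative on it. -/
private theorem LCc_aux {w : ℝ → ℝ} (hw : Continuous w) (hm : ∀ x t : ℝ, 0 < t → w (x - t) + w (x + t) ≤ 2 * w x)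
    {x y : ℝ} (hx : w x = 0) (hy : w y = 0) {z0 : ℝ} (hz0 : z0 ∈ Icc x y) : 0 ≤ w z0 := by
  by_contra hc
  have hc' : w z0 < 0 := not_le.1 hc
  obtain ⟨zm, hzm, hmin⟩ := (isCompact_Icc (a := x) (b := y)).exists_isMinOn ⟨z0, hz0⟩ hw.continuousOn
  have hmin' : ∀ z ∈ Icc x y, w zm ≤ w z := fun z hz => hmin hz
  obtain ⟨m, hme⟩ : ∃ m, m = w zm := ⟨_, rfl⟩
  rw [← hme] at hmin'
  have hm0 : m < 0 := lt_of_le_of_lt (hmin' z0 hz0) hc'
  have hA : IsClosed (Icc x y ∩ w ⁻¹' {m}) := isClosed_Icc.inter (isClosed_singleton.preimage hw)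
  have hbd : BddBelow (Icc x y ∩ w ⁻¹' {m}) := ⟨x, fun z hz => hz.1.1⟩
  have hz := hA.csInf_mem ⟨zm, hzm, hme.symm⟩ hbd
  obtain ⟨z, hze⟩ : ∃ z, z = sInf (Icc x y ∩ w ⁻¹' {m}) := ⟨_, rfl⟩
  rw [← hze] at hz
  have hwz : w z = m := hz.2
  have h1 : x < z := by
    rcases hz.1.1.lt_or_eq with h | h
    · exact h
    · rw [← h, hx] at hwz
      linarith
  have h2 : z < y := by
    rcases hz.1.2.lt_or_eq with h | h
    · exact h
    · rw [h, hy] at hwz
      linarith
  have ht : 0 < min (z - x) (y - z) := lt_min (by linarith) (by linarith)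
  have h3 := hm z (min (z - x) (y - z)) ht
  have h4 := min_le_left (z - x) (y - z)
  have h5 := min_le_right (z - x) (y - z)
  obtain ⟨t, hte⟩ : ∃ t, t = min (z - x) (y - z) := ⟨_, rfl⟩
  rw [← hte] at ht h3 h4 h5
  have h6 : z - t ∈ Icc x y := ⟨by linarith, by linarith⟩
  have h7 : z + t ∈ Icc x y := ⟨by linarith, by linarith⟩
  have h8 := hmin' _ h6
  have h9 := hmin' _ h7
  have h10 : w (z - t) = m := by linarith
  have h11 := csInf_le hbd (show z - t ∈ Icc x y ∩ w ⁻¹' {m} from ⟨h6, h10⟩)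
  rw [← hze] at h11
  linarith

theorem posLC_concave (f : ℝ → ℝ) (h : PosLC f) :
    ConcaveOn ℝ univ (fun x => Real.log (f x)) := by
  have hcont : Continuous fun x => Real.log (f x) := h.cont.log fun x => (h.pos x).ne'
  have hmid : ∀ x t : ℝ, 0 < t → Real.log (f (x - t)) + Real.log (f (x + t)) ≤ 2 * Real.log (f x) := by
    intro x t ht
    have h1 := h.lc (x - t) x t (by linarith) ht
    rw [sub_add_cancel] at h1
    have h2 := Real.log_le_log (mul_pos (h.pos _) (h.pos _)) h1
    rw [Real.log_mul (h.pos _).ne' (h.pos _).ne', Real.log_mul (h.pos _).ne' (h.pos _).ne'] at h2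
    linarith
  refine LinearOrder.concaveOn_of_lt convex_univ fun x _ y _ hxy a b ha hb hab => ?_
  obtain ⟨s, hs⟩ : ∃ s : ℝ, s * (y - x) = Real.log (f y) - Real.log (f x) :=
    ⟨(Real.log (f y) - Real.log (f x)) / (y - x), div_mul_cancel₀ _ (sub_pos.2 hxy).ne'⟩
  have key := LCc_aux (w := fun z => Real.log (f z) - (Real.log (f x) + s * (z - x))) (x := x) (y := y)
    (hcont.sub (by fun_prop)) (fun z t ht => by
      have h1 := hmid z t ht
      nlinarith) (by simp) (by
      rw [hs]
      ring) (z0 := a • x + b • y) (by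
      have hb' : b = 1 - a := by linarith
      rw [smul_eq_mul, smul_eq_mul, hb']
      constructor <;> nlinarith)
  have h1 : s * (a • x + b • y - x) = b * (Real.log (f y) - Real.log (f x)) := by
    have ha' : a = 1 - b := by linarith
    rw [← hs, smul_eq_mul, smul_eq_mul, ha']
    ring
  rw [h1] at key
  have ha' : a = 1 - b := by linarith
  simp only [smul_eq_mul] at key ⊢
  have h2 : a * Real.log (f x) + b * Real.log (f y) =
      Real.log (f x) + b * (Real.log (f y) - Real.log (f x)) := by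
    rw [ha']
    ring
  rw [h2]
  linarith

end Pool.Agent.Lib.MP_a80c92_pr
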