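import Pool.Agent.Lib.MP_a80c92_pr.N.NMain

/-! # The tilted variances are unbounded; Lévy measures on a lattice -/

open MeasureTheory Set Filter Topology ProbabilityTheory
open scoped ENNReal NNReal

namespace Pool.Agent.Lib.MP_a80c92_pr

theorem nl_J_mono (ν : Measure ℝ) {s t : ℝ} (h : s ≤ t) : J ν s ≤ J ν t := by
  unfold J
  refine lintegral_mono_ae ?_
  filter_upwards [ae_restrict_mem measurableSet_Ioi] with x hx
  apply ENNReal.ofReal_le_ofReal
  apply Real.exp_le_exp.2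
  have : (1 : ℝ) < x := hx
  nlinarith

theorem nl_J_neg (ν : Measure ℝ) (s : ℝ) :
    J (ν.map (fun x => -x)) s =
      ∫⁻ x in Iio (-1), ENNReal.ofReal (Real.exp (-(s * x))) ∂ν := by
  unfold J
  rw [setLIntegral_map measurableSet_Ioi (by fun_prop) (by fun_prop)]
  have : (fun x : ℝ => -x) ⁻¹' Ioi 1 = Iio (-1) := by
    ext x
    simp only [mem_preimage, mem_Ioi, mem_Iio]
    constructor <;> intro h <;> linarith
  rw [this]
  simp only [mul_neg]

theorem inDom_of (ν : Measure ℝ) (θ s s' : ℝ) (h1 : J ν s < ∞)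
    (h2 : J (ν.map (fun x => -x)) s' < ∞) (hs : θ < s) (hs' : -θ < s') : InDom ν θ := by
  rw [nl_J_neg] at h2
  unfold J at h1
  refine ⟨min (s - θ) (s' + θ), lt_min (by linarith) (by linarith), ?_⟩
  set ε := min (s - θ) (s' + θ) with hε
  have e1 : ε ≤ s - θ := min_le_left _ _
  have e2 : ε ≤ s' + θ := min_le_right _ _
  have hsub : {x : ℝ | 1 < |x|} ⊆ Ioi 1 ∪ Iio (-1) := by
    intro x hx
    have hx' : 1 < |x| := hx
    rcases lt_abs.1 hx' with h | h
    · exact Or.inl h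
    · exact Or.inr (by simp only [mem_Iio]; linarith)
  refine lt_of_le_of_lt (lintegral_mono_set hsub) ?_
  refine lt_of_le_of_lt (lintegral_union_le _ _ _) ?_
  refine ENNReal.add_lt_top.2 ⟨lt_of_le_of_lt ?_ h1, lt_of_le_of_lt ?_ h2⟩
  · refine lintegral_mono_ae ?_
    filter_upwards [ae_restrict_mem measurableSet_Ioi] with x hx
    apply ENNReal.ofReal_le_ofReal
    apply Real.exp_le_exp.2
    have hx1 : (1 : ℝ) < x := hx
    rw [abs_of_pos (by linarith)]
    nlinarith
  · refine lintegral_mono_ae ?_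
    filter_upwards [ae_restrict_mem measurableSet_Iio] with x hx
    apply ENNReal.ofReal_le_ofReal
    apply Real.exp_le_exp.2
    have hx1 : x < -1 := hx
    rw [abs_of_neg (by linarith)]
    nlinarith

theorem nl_Ioi_fin (ν : Measure ℝ) (h : IsLevy ν) (a : ℝ) (ha : 0 < a) : ν (Ioi a) < ∞ := by
  have h1 := h.fin
  have hm : 0 < min 1 (a ^ 2) := lt_min one_pos (by positivity)
  have h2 : ENNReal.ofReal (min 1 (a ^ 2)) * ν (Ioi a) ≤
      ∫⁻ x, ENNReal.ofReal (min 1 (x ^ 2)) ∂ν := by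
    rw [← setLIntegral_const]
    refine (setLIntegral_mono_ae' measurableSet_Ioi ?_).trans (setLIntegral_le_lintegral _ _)
    refine Filter.Eventually.of_forall fun x hx => ?_
    apply ENNReal.ofReal_le_ofReal
    have hxa : a < x := hx
    exact min_le_min le_rfl (by nlinarith)
  by_contra hcon
  have h3 : ν (Ioi a) = ∞ := not_lt_top_iff.1 hcon
  rw [h3, ENNReal.mul_top (ENNReal.ofReal_pos.2 hm).ne'] at h2
  exact absurd (lt_of_le_of_lt h2 h1) (lt_irrefl _)

theorem nl_Vt_ge1 (s2 : ℝ) (hs2 : 0 ≤ s2) (ν : Measure ℝ) (h : IsLevy ν) (θ : ℝ) (hθ : 0 ≤ θ)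
    (hd : InDom ν θ) (a : ℝ) (ha : 0 < a) :
    a ^ 2 * Real.exp (θ * a) * ν.real (Ioi a) ≤ Vt s2 ν θ := by
  have hi := int_tilt_sq ν h θ hd
  have hfin := nl_Ioi_fin ν h a ha
  have h1 : a ^ 2 * Real.exp (θ * a) * ν.real (Ioi a) ≤
      ∫ x in Ioi a, x ^ 2 * Real.exp (θ * x) ∂ν := by
    have h2 : ∫ _x in Ioi a, a ^ 2 * Real.exp (θ * a) ∂ν =
        a ^ 2 * Real.exp (θ * a) * ν.real (Ioi a) := by
      rw [setIntegral_const, smul_eq_mul, mul_comm]
    rw [← h2]
    refine setIntegral_mono_on ?_ hi.integrableOn measurableSet_Ioi ?_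
    · exact integrableOn_const hfin.ne
    · intro x hx
      have hxa : a < x := hx
      have : Real.exp (θ * a) ≤ Real.exp (θ * x) := Real.exp_le_exp.2 (by nlinarith)
      exact mul_le_mul (by nlinarith) this (Real.exp_pos _).le (by positivity)
  have h3 : ∫ x in Ioi a, x ^ 2 * Real.exp (θ * x) ∂ν ≤ ∫ x, x ^ 2 * Real.exp (θ * x) ∂ν :=
    setIntegral_le_integral hi (Filter.Eventually.of_forall fun x => by positivity)
  unfold Vt
  linarith

theorem nl_Vt_ge2 (s2 : ℝ) (hs2 : 0 ≤ s2) (ν : Measure ℝ) (h : IsLevy ν) (θ : ℝ)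
    (hd : InDom ν θ) : (J ν θ).toReal ≤ Vt s2 ν θ := by
  have hi := int_tilt_sq ν h θ hd
  have h3 : ∫ x in Ioi 1, x ^ 2 * Real.exp (θ * x) ∂ν ≤ ∫ x, x ^ 2 * Real.exp (θ * x) ∂ν :=
    setIntegral_le_integral hi (Filter.Eventually.of_forall fun x => by positivity)
  have hi1 : IntegrableOn (fun x => Real.exp (θ * x)) (Ioi 1) ν := by
    refine Integrable.mono' hi.integrableOn (by fun_prop) ?_
    filter_upwards [ae_restrict_mem measurableSet_Ioi] with x hx
    have hx1 : (1 : ℝ) < x := hx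
    rw [Real.norm_eq_abs, abs_of_pos (Real.exp_pos _)]
    exact le_mul_of_one_le_left (Real.exp_pos _).le (by nlinarith)
  have h1 : (J ν θ).toReal = ∫ x in Ioi 1, Real.exp (θ * x) ∂ν := by
    unfold J
    rw [integral_eq_lintegral_of_nonneg_ae (Filter.Eventually.of_forall fun x =>
      (Real.exp_pos _).le) (by fun_prop)]
  have h2 : ∫ x in Ioi 1, Real.exp (θ * x) ∂ν ≤ ∫ x in Ioi 1, x ^ 2 * Real.exp (θ * x) ∂ν := by
    refine setIntegral_mono_on hi1 hi.integrableOn measurableSet_Ioi ?_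
    intro x hx
    have hx1 : (1 : ℝ) < x := hx
    exact le_mul_of_one_le_left (Real.exp_pos _).le (by nlinarith)
  unfold Vt
  linarith

/-- If the part of `ν` on the right is not zero, the tilted variances are unbounded. -/
theorem nl_unb_right (s2 : ℝ) (hs2 : 0 ≤ s2) (ν : Measure ℝ) (h : IsLevy ν)
    (hR : NecSide ν) (hL : NecSide (ν.map (fun x => -x))) (hne : ν (Ioi 0) ≠ 0) (B : ℝ) :
    ∃ θ : ℝ, InDom ν θ ∧ B < Vt s2 ν θ := by
  obtain ⟨s', hs'0, hs'⟩ := hL.1
  obtain ⟨s1, hs10, hs1⟩ := hR.1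
  by_cases hall : ∀ s, J ν s < ∞
  · obtain ⟨a, ha, hma⟩ : ∃ a : ℝ, 0 < a ∧ ν (Ioi a) ≠ 0 := by
      by_contra hcon
      push Not at hcon
      apply hne
      have : Ioi (0 : ℝ) = ⋃ n : ℕ, Ioi (1 / ((n : ℝ) + 1)) := by
        ext x
        simp only [mem_Ioi, mem_iUnion]
        constructor
        · intro hx
          exact exists_nat_one_div_lt hx
        · rintro ⟨n, hn⟩
          exact lt_trans (by positivity) hn
      rw [this]
      exact measure_iUnion_null fun n => hcon _ (by positivity)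
    have hm : 0 < ν.real (Ioi a) :=
      ENNReal.toReal_pos hma (nl_Ioi_fin ν h a ha).ne
    have hlim : Tendsto (fun θ : ℝ => a ^ 2 * Real.exp (θ * a) * ν.real (Ioi a)) atTop atTop := by
      have h1 : Tendsto (fun θ : ℝ => θ * a) atTop atTop := tendsto_id.atTop_mul_const ha
      have h2 := Real.tendsto_exp_atTop.comp h1
      have h3 := (h2.const_mul_atTop (show (0 : ℝ) < a ^ 2 by positivity)).atTop_mul_const hm
      exact h3
    obtain ⟨θ, h1, h2⟩ := ((hlim.eventually_gt_atTop B).and (eventually_ge_atTop (0 : ℝ))).exists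
    have hd : InDom ν θ := inDom_of ν θ (θ + 1) s' (hall _) hs' (by linarith) (by linarith)
    exact ⟨θ, hd, lt_of_lt_of_le h1 (nl_Vt_ge1 s2 hs2 ν h θ h2 hd a ha)⟩
  · push Not at hall
    obtain ⟨s0, hs0⟩ := hall
    have hs0' : J ν s0 = ∞ := top_le_iff.1 hs0
    set S : Set ℝ := {s | J ν s < ∞} with hS
    have hbdd : BddAbove S := by
      refine ⟨s0, fun s hs => ?_⟩
      by_contra hcon
      have := nl_J_mono ν (not_le.1 hcon).le
      rw [hs0'] at this
      exact absurd (lt_of_le_of_lt this hs) (lt_irrefl _)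
    have hneS : S.Nonempty := ⟨s1, hs1⟩
    set lam := sSup S with hlam
    have hlampos : 0 < lam := lt_of_lt_of_le hs10 (le_csSup hbdd hs1)
    have hlt : ∀ s, s < lam → J ν s < ∞ := by
      intro s hs
      obtain ⟨s2', hs2', h3⟩ := exists_lt_of_lt_csSup hneS hs
      exact lt_of_le_of_lt (nl_J_mono ν h3.le) hs2'
    have hgt : ∀ s, lam < s → J ν s = ∞ := by
      intro s hs
      by_contra hcon
      have : s ∈ S := lt_top_iff_ne_top.2 hcon
      exact absurd (le_csSup hbdd this) (not_le.2 hs)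
    obtain ⟨C, hC⟩ := hR.2 lam hlampos hlt hgt
    -- choose θ close to lam
    set δ := min (lam / 2) (Real.exp (-(B + C + 1))) with hδ
    have hδ0 : 0 < δ := lt_min (by positivity) (Real.exp_pos _)
    have hδ1 : δ ≤ lam / 2 := min_le_left _ _
    have hδ2 : δ ≤ Real.exp (-(B + C + 1)) := min_le_right _ _
    have hd : InDom ν (lam - δ) :=
      inDom_of ν (lam - δ) (lam - δ / 2) s' (hlt _ (by linarith)) hs' (by linarith) (by linarith)
    refine ⟨lam - δ, hd, ?_⟩
    have h1 := hC (lam - δ) (by linarith) (by linarith)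
    have h2 : lam - (lam - δ) = δ := by ring
    rw [h2] at h1
    have h3 : B + C + 1 ≤ Real.log (1 / δ) := by
      rw [one_div, Real.log_inv]
      have := Real.log_le_log hδ0 hδ2
      rw [Real.log_exp] at this
      linarith
    have := nl_Vt_ge2 s2 hs2 ν h (lam - δ) hd
    linarith

theorem nl_Vt_neg (s2 : ℝ) (ν : Measure ℝ) (θ : ℝ) :
    Vt s2 (ν.map (fun x => -x)) θ = Vt s2 ν (-θ) := by
  unfold Vt
  rw [integral_map (by fun_prop) (by fun_prop)]
  simp

theorem nl_inDom_neg (ν : Measure ℝ) (θ : ℝ) (h : InDom (ν.map (fun x => -x)) θ) :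
    InDom ν (-θ) := by
  obtain ⟨ε, hε, h1⟩ := h
  refine ⟨ε, hε, ?_⟩
  have hm : MeasurableSet {x : ℝ | 1 < |x|} := measurableSet_lt measurable_const (by fun_prop)
  rw [setLIntegral_map hm (by fun_prop) (by fun_prop)] at h1
  have e1 : (fun x : ℝ => -x) ⁻¹' {x : ℝ | 1 < |x|} = {x : ℝ | 1 < |x|} := by
    ext x; simp
  rw [e1] at h1
  refine lt_of_le_of_lt (le_of_eq ?_) h1
  congr 1
  funext x
  simp

/-- For a strongly unimodal law with `ν ≠ 0` the tilted variances are unbounded. -/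
theorem nl_unb (μ : Measure ℝ) [IsProbabilityMeasure μ] (g s2 : ℝ) (ν : Measure ℝ)
    (h : HasTriple μ g s2 ν) (hsu : StronglyUnimodal μ) (hne : ν ≠ 0) (B : ℝ) :
    ∃ θ : ℝ, InDom ν θ ∧ B < Vt s2 ν θ := by
  obtain ⟨hR, hL⟩ := necessary μ g s2 ν h hsu
  by_cases h1 : ν (Ioi 0) = 0
  · have h2 : ν (Iio 0) ≠ 0 := by
      intro h2
      apply hne
      rw [← Measure.measure_univ_eq_zero]
      have : (univ : Set ℝ) = Ioi 0 ∪ (Iio 0 ∪ {0}) := by
        ext x
        simp only [mem_univ, mem_union, mem_Ioi, mem_Iio, mem_singleton_iff, true_iff]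
        rcases lt_trichotomy x 0 with h | h | h
        · exact Or.inr (Or.inl h)
        · exact Or.inr (Or.inr h)
        · exact Or.inl h
      rw [this]
      exact measure_union_null h1 (measure_union_null h2 h.levy.zero)
    have h3 := hasTriple_neg μ g s2 ν h
    have h4 : (ν.map (fun x => -x)) (Ioi 0) ≠ 0 := by
      rw [Measure.map_apply (by fun_prop) measurableSet_Ioi]
      have : (fun x : ℝ => -x) ⁻¹' Ioi 0 = Iio 0 := by
        ext x; simp
      rw [this]
      exact h2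
    have h5 : (ν.map (fun x : ℝ => -x)).map (fun x : ℝ => -x) = ν := by
      rw [Measure.map_map (by fun_prop) (by fun_prop)]
      have : (fun x : ℝ => -x) ∘ (fun x : ℝ => -x) = id := by
        funext x; simp
      rw [this, Measure.map_id]
    obtain ⟨θ, hd, hB⟩ := nl_unb_right s2 h.s2_nonneg (ν.map (fun x => -x)) h3.levy hL
      (by rw [h5]; exact hR) h4 B
    refine ⟨-θ, nl_inDom_neg ν θ hd, ?_⟩
    rw [← nl_Vt_neg]
    exact hB
  · exact nl_unb_right s2 h.s2_nonneg ν h.levy hR hL h1 B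

/-- The tilted exponent is unbounded at every `t ≠ 0`. -/
theorem nl_psi_unb (μ : Measure ℝ) [IsProbabilityMeasure μ] (g s2 : ℝ) (ν : Measure ℝ)
    (h : HasTriple μ g s2 ν) (hsu : StronglyUnimodal μ) (hne : ν ≠ 0) (t : ℝ) (ht : t ≠ 0)
    (B : ℝ) : ∃ θ : ℝ, InDom ν θ ∧ B < Psi s2 ν θ t := by
  obtain ⟨C0, hC0⟩ := thmN
  obtain ⟨θ, hd, hB⟩ := nl_unb μ g s2 ν h hsu hne (Real.exp (2 * (B - Real.log |t| + C0)))
  refine ⟨θ, hd, ?_⟩
  have h1 := hC0 μ g s2 ν h hsu (Or.inr hne) θ hd t ht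
  have h2 := Real.log_lt_log (Real.exp_pos _) hB
  rw [Real.log_exp] at h2
  linarith

/-- A nonzero Lévy measure on a lattice is never that of a strongly unimodal law, whatever the
Gaussian part. -/
theorem nl_lattice (μ : Measure ℝ) [IsProbabilityMeasure μ] (g s2 : ℝ) (ν : Measure ℝ)
    (h : HasTriple μ g s2 ν) (hne : ν ≠ 0) (d : ℝ) (hd : 0 < d)
    (hlat : ∀ᵐ x ∂ν, ∃ k : ℤ, x = k * d) : ¬ StronglyUnimodal μ := by
  intro hsu
  have ht : 2 * Real.pi / d ≠ 0 := by positivity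
  obtain ⟨θ, hdom, hB⟩ := nl_psi_unb μ g s2 ν h hsu hne (2 * Real.pi / d) ht
    (s2 * (2 * Real.pi / d) ^ 2 / 2)
  unfold Psi at hB
  have h0 : ∫ x, (1 - Real.cos (2 * Real.pi / d * x)) * Real.exp (θ * x) ∂ν = 0 := by
    rw [integral_eq_zero_of_ae]
    filter_upwards [hlat] with x hx
    obtain ⟨k, hk⟩ := hx
    have e1 : 2 * Real.pi / d * x = k * (2 * Real.pi) := by
      rw [hk]; field_simp
    rw [e1, Real.cos_int_mul_two_pi]
    simp
  rw [h0] at hB
  linarith

end Pool.Agent.Lib.MP_a80c92_pr
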