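import Pool.Agent.Lib.MP_a80c92_pr.Defs2

/-! # JOB N/Osc: Fourier transform of a bounded unimodal density

PROOF. Let `η = π/|t|`. `e^{it(x+η)} = -e^{itx}` (for `t > 0`; for `t < 0` too), so
`∫ e^{itx} f(x) dx = ∫ e^{it(x+η)} f(x+η) dx = -∫ e^{itx} f(x+η) dx` (translation invariance), hence
`2 |∫ e^{itx} f| = |∫ e^{itx} (f x - f (x+η)) dx| ≤ ∫ |f x - f (x+η)| dx`. Now
`∫_{x ≤ a-η} (f (x+η) - f x) = ∫_{a-η}^{a} f ≤ M η` (`M = f a`), `∫_{x ≥ a} (f x - f (x+η)) =
∫_a^{a+η} f ≤ M η`, and on `[a-η, a]` the integrand is at most `M`: another `M η`. So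
`|∫ e^{itx} f| ≤ (3/2) M π/|t| ≤ 5 M/|t|`. (Difference of integrals over half lines: translate,
`∫_{Iic (a-η)} f (x+η) = ∫_{Iic a} f`.) -/

open MeasureTheory Set Filter Topology ProbabilityTheory
open scoped ENNReal NNReal

namespace Pool.Agent.Lib.MP_a80c92_pr

theorem osc_bound (f : ℝ → ℝ) (a : ℝ) (h0 : ∀ x, 0 ≤ f x) (hint : Integrable f)
    (hmax : ∀ x, f x ≤ f a) (hm : MonotoneOn f (Iic a)) (ha : AntitoneOn f (Ici a))
    (t : ℝ) (ht : t ≠ 0) :
    ‖∫ x : ℝ, Complex.exp (t * x * Complex.I) * (f x : ℂ)‖ ≤ 5 * f a / |t| := by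
  have htp : 0 < |t| := abs_pos.2 ht
  obtain ⟨η, hη⟩ : ∃ η : ℝ, η = Real.pi / |t| := ⟨_, rfl⟩
  have hηp : 0 < η := by
    rw [hη]
    exact div_pos Real.pi_pos htp
  have hM : 0 ≤ f a := h0 a
  have hgint : Integrable (fun x => f (x + η)) := hint.comp_add_right η
  have hexp : ∀ x : ℝ, Complex.exp (t * ((x + η : ℝ) : ℂ) * Complex.I) = -Complex.exp (t * x * Complex.I) := by
    intro x
    have h1 : (t : ℂ) * ((x + η : ℝ) : ℂ) * Complex.I = t * x * Complex.I + ((t * η : ℝ) : ℂ) * Complex.I := by
      push_cast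
      ring
    have h2 : Complex.exp (((t * η : ℝ) : ℂ) * Complex.I) = -1 := by
      rcases lt_or_gt_of_ne ht with h | h
      · have h3 : t * η = -Real.pi := by
          rw [hη, abs_of_neg h]
          field_simp
        rw [h3]
        push_cast
        rw [neg_mul, Complex.exp_neg, Complex.exp_pi_mul_I]
        norm_num
      · have h3 : t * η = Real.pi := by
          rw [hη, abs_of_pos h]
          field_simp
        rw [h3, Complex.exp_pi_mul_I]
    rw [h1, Complex.exp_add, h2]
    ring
  have hme : Continuous fun x : ℝ => Complex.exp (t * x * Complex.I) := by fun_prop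
  have hne : ∀ x : ℝ, ‖Complex.exp (t * x * Complex.I)‖ ≤ 1 := by
    intro x
    have h1 : (t : ℂ) * x * Complex.I = ((t * x : ℝ) : ℂ) * Complex.I := by push_cast; ring
    rw [h1, Complex.norm_exp_ofReal_mul_I]
  have hI1 : Integrable fun x : ℝ => Complex.exp (t * x * Complex.I) * (f x : ℂ) :=
    hint.ofReal.bdd_mul hme.aestronglyMeasurable (Eventually.of_forall hne)
  have hI2 : Integrable fun x : ℝ => Complex.exp (t * x * Complex.I) * (f (x + η) : ℂ) :=
    hgint.ofReal.bdd_mul hme.aestronglyMeasurable (Eventually.of_forall hne)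
  have hkey : (2 : ℂ) * ∫ x : ℝ, Complex.exp (t * x * Complex.I) * (f x : ℂ) =
      ∫ x : ℝ, Complex.exp (t * x * Complex.I) * ((f x - f (x + η) : ℝ) : ℂ) := by
    have h1 : ∫ x : ℝ, Complex.exp (t * x * Complex.I) * (f x : ℂ) =
        -∫ x : ℝ, Complex.exp (t * x * Complex.I) * (f (x + η) : ℂ) := by
      rw [← integral_add_right_eq_self (fun x : ℝ => Complex.exp (t * x * Complex.I) * (f x : ℂ)) η, ← integral_neg]
      refine integral_congr_ae (Eventually.of_forall fun x => ?_)
      simp only
      rw [hexp x, neg_mul]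
    have h2 : ∫ x : ℝ, Complex.exp (t * x * Complex.I) * ((f x - f (x + η) : ℝ) : ℂ) =
        (∫ x : ℝ, Complex.exp (t * x * Complex.I) * (f x : ℂ)) -
          ∫ x : ℝ, Complex.exp (t * x * Complex.I) * (f (x + η) : ℂ) := by
      rw [← integral_sub hI1 hI2]
      refine integral_congr_ae (Eventually.of_forall fun x => ?_)
      simp only
      push_cast
      ring
    have h3 : ∫ x : ℝ, Complex.exp (t * x * Complex.I) * (f (x + η) : ℂ) =
        -∫ x : ℝ, Complex.exp (t * x * Complex.I) * (f x : ℂ) := by
      rw [h1, neg_neg]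
    rw [h2, h3]
    ring
  have hDint : Integrable fun x => |f x - f (x + η)| := (hint.sub hgint).abs
  have hn2 : 2 * ‖∫ x : ℝ, Complex.exp (t * x * Complex.I) * (f x : ℂ)‖ ≤ ∫ x, |f x - f (x + η)| := by
    have h1 : 2 * ‖∫ x : ℝ, Complex.exp (t * x * Complex.I) * (f x : ℂ)‖ =
        ‖(2 : ℂ) * ∫ x : ℝ, Complex.exp (t * x * Complex.I) * (f x : ℂ)‖ := by
      rw [norm_mul, Complex.norm_ofNat]
    rw [h1, hkey]
    refine (norm_integral_le_integral_norm _).trans (integral_mono_of_nonneg
      (Eventually.of_forall fun x => norm_nonneg _) hDint (Eventually.of_forall fun x => ?_))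
    simp only
    rw [norm_mul, Complex.norm_real, Real.norm_eq_abs]
    exact mul_le_of_le_one_left (abs_nonneg _) (hne x)
  have hA : ∀ b, ∫ x in Iic b, f (x + η) = ∫ x in Iic (b + η), f x := by
    intro b
    rw [← integral_indicator measurableSet_Iic, ← integral_indicator measurableSet_Iic,
      ← integral_add_right_eq_self (indicator (Iic (b + η)) f) η]
    refine integral_congr_ae (Eventually.of_forall fun x => ?_)
    simp only
    by_cases hx : x ≤ b
    · rw [indicator_of_mem (show x ∈ Iic b from hx), indicator_of_mem (show x + η ∈ Iic (b + η) from by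
        rw [mem_Iic]; linarith)]
    · rw [indicator_of_notMem (show x ∉ Iic b from hx), indicator_of_notMem (show x + η ∉ Iic (b + η) from by
        rw [mem_Iic]; intro h; apply hx; linarith)]
  have hbd : ∀ b c : ℝ, b ≤ c → ∫ x in b..c, f x ≤ f a * (c - b) := by
    intro b c hbc
    have h1 := intervalIntegral.norm_integral_le_of_norm_le_const (a := b) (b := c) (f := f) (C := f a) (fun x _ => by
      rw [Real.norm_of_nonneg (h0 x)]
      exact hmax x)
    rw [abs_of_nonneg (by linarith)] at h1
    exact (Real.le_norm_self _).trans h1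
  have hD1 : ∫ x in Iic (a - η), |f x - f (x + η)| ≤ f a * η := by
    have h1 : ∫ x in Iic (a - η), |f x - f (x + η)| = ∫ x in Iic (a - η), (f (x + η) - f x) := by
      refine setIntegral_congr_fun measurableSet_Iic fun x hx => ?_
      rw [mem_Iic] at hx
      have h2 : f x ≤ f (x + η) := hm (show x ∈ Iic a from by rw [mem_Iic]; linarith)
        (show x + η ∈ Iic a from by rw [mem_Iic]; linarith) (by linarith)
      rw [abs_of_nonpos (by linarith)]
      ring
    rw [h1, integral_sub hgint.integrableOn hint.integrableOn, hA, sub_add_cancel,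
      intervalIntegral.integral_Iic_sub_Iic hint.integrableOn hint.integrableOn]
    have h3 := hbd (a - η) a (by linarith)
    have h4 : a - (a - η) = η := by ring
    rw [h4] at h3
    exact h3
  have hD2 : ∫ x in (a - η)..a, |f x - f (x + η)| ≤ f a * η := by
    have h1 := intervalIntegral.norm_integral_le_of_norm_le_const (a := a - η) (b := a)
      (f := fun x => |f x - f (x + η)|) (C := f a) (fun x _ => by
      rw [Real.norm_of_nonneg (abs_nonneg _), abs_le]
      have e1 := h0 x
      have e2 := h0 (x + η)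
      have e3 := hmax x
      have e4 := hmax (x + η)
      constructor <;> linarith)
    have h4 : |a - (a - η)| = η := by
      rw [sub_sub_cancel, abs_of_pos hηp]
    rw [h4] at h1
    exact (Real.le_norm_self _).trans h1
  have hD3 : ∫ x in Ioi a, |f x - f (x + η)| ≤ f a * η := by
    have h1 : ∫ x in Ioi a, |f x - f (x + η)| = ∫ x in Ioi a, (f x - f (x + η)) := by
      refine setIntegral_congr_fun measurableSet_Ioi fun x hx => ?_
      rw [mem_Ioi] at hx
      have h2 : f (x + η) ≤ f x := ha (show x ∈ Ici a from hx.le)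
        (show x + η ∈ Ici a from by rw [mem_Ici]; linarith) (by linarith)
      rw [abs_of_nonneg (by linarith)]
    have h5 := intervalIntegral.integral_Iic_add_Ioi (b := a) hint.integrableOn hint.integrableOn
    have h6 := intervalIntegral.integral_Iic_add_Ioi (b := a) hgint.integrableOn hgint.integrableOn
    have h7 := integral_add_right_eq_self f η (μ := volume)
    have h8 := intervalIntegral.integral_Iic_sub_Iic (a := a) (b := a + η) (hint.integrableOn) (hint.integrableOn)
    rw [hA] at h6
    rw [h1, integral_sub hint.integrableOn hgint.integrableOn]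
    have h3 := hbd a (a + η) (by linarith)
    have h4 : a + η - a = η := by ring
    rw [h4] at h3
    linarith
  have hsum : ∫ x, |f x - f (x + η)| ≤ 3 * (f a * η) := by
    have h1 := intervalIntegral.integral_Iic_add_Ioi (b := a) hDint.integrableOn hDint.integrableOn
    have h2 := intervalIntegral.integral_Iic_sub_Iic (a := a - η) (b := a) (hDint.integrableOn) (hDint.integrableOn)
    linarith
  have hfin : 3 * (f a * η) ≤ 2 * (5 * f a / |t|) := by
    have h1 : 3 * (f a * η) = (3 * Real.pi) * (f a / |t|) := by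
      rw [hη]
      ring
    have h2 : 2 * (5 * f a / |t|) = 10 * (f a / |t|) := by ring
    rw [h1, h2]
    have h3 : 3 * Real.pi ≤ 10 := by
      have := Real.pi_lt_d2
      linarith
    exact mul_le_mul_of_nonneg_right h3 (div_nonneg hM htp.le)
  linarith

end Pool.Agent.Lib.MP_a80c92_pr
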