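import Pool.Agent.Lib.MP_a80c92_pr.N.Uni

/-! # JOB N/Sec: second moment of a log-concave density about its mode

PROOF. `M = f a`, `u = log f` concave. By `posLC_top` and continuity there is `d > 0` with
`f (a+d) = M/e`. `f ≥ M/e` on `[a, a+d]` (nonincreasing), `∫ f = 1`: `d M/e ≤ 1`, `d ≤ e/M`. For
`y ≥ d` concavity of `u` gives `u (a+y) ≤ u a - y/d` (slopes decrease), so `f (a+y) ≤ M e^{-y/d}`.
`∫_{x>a} (x-a)² f ≤ d² ∫ f + M ∫_d^∞ y² e^{-y/d} dy ≤ d² + 2 M d³ ≤ e²/M² + 2 e³/M²`. The same on the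
left (apply to `f (-·)`, or repeat). Total `≤ 2 (e² + 2 e³)/M² ≤ 100/M²` (`e < 2.7183`). -/

open MeasureTheory Set Filter Topology ProbabilityTheory
open scoped ENNReal NNReal

namespace Pool.Agent.Lib.MP_a80c92_pr

private theorem Sec_shift (f : ℝ → ℝ) (h : PosLC f) (a : ℝ) : PosLC (fun x => f (a + x)) where
  cont := h.cont.comp (continuous_const.add continuous_id)
  pos x := h.pos _
  lc x y t hxy ht := by
    have h1 := h.lc (a + x) (a + y) t (by linarith) ht
    have e1 : a + y + t = a + (y + t) := by ring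
    have e2 : a + x + t = a + (x + t) := by ring
    rw [e1, e2] at h1
    exact h1
  int := h.int.comp_add_left a

private theorem Sec_refl (f : ℝ → ℝ) (h : PosLC f) (a : ℝ) : PosLC (fun x => f (a - x)) where
  cont := h.cont.comp (continuous_const.sub continuous_id)
  pos x := h.pos _
  lc x y t hxy ht := by
    have h1 := h.lc (a - (y + t)) (a - (x + t)) t (by linarith) ht
    have e1 : a - (x + t) + t = a - x := by ring
    have e2 : a - (y + t) + t = a - y := by ring
    rw [e1, e2] at h1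
    show f (a - x) * f (a - (y + t)) ≤ f (a - (x + t)) * f (a - y)
    rw [mul_comm (f (a - x)), mul_comm (f (a - (x + t)))]
    exact h1
  int := h.int.comp_sub_left a

/-- decay at the distance `14/(5 M)` -/
private theorem Sec_dec (g : ℝ → ℝ) (h : PosLC g) (h1 : ∫ x, g x = 1) {D y : ℝ} (hD : D = 14 / 5 / g 0)
    (hy : D ≤ y) : g y ≤ g 0 * Real.exp (-(y / D)) := by
  have hM := h.pos 0
  have hD0 : 0 < D := by
    rw [hD]
    positivity
  have hy0 : 0 < y := hD0.trans_le hy
  by_contra hcon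
  rw [not_le] at hcon
  have hu := posLC_concave g h
  have hlow : ∀ s ∈ Icc 0 D, g 0 * Real.exp (-1) ≤ g s := by
    intro s hs
    have hs0 : 0 ≤ s / y := div_nonneg hs.1 hy0.le
    have hs1 : s / y ≤ 1 := by
      rw [div_le_one hy0]
      exact hs.2.trans hy
    have h2 := hu.2 (mem_univ (0 : ℝ)) (mem_univ y) (sub_nonneg.2 hs1) hs0 (by ring)
    have h3 : (1 - s / y) • (0 : ℝ) + (s / y) • y = s := by
      rw [smul_zero, zero_add, smul_eq_mul, div_mul_cancel₀ _ hy0.ne']
    rw [h3] at h2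
    simp only [smul_eq_mul] at h2
    have h4 : Real.log (g 0) - y / D ≤ Real.log (g y) := by
      have h5 : Real.log (g 0 * Real.exp (-(y / D))) ≤ Real.log (g y) :=
        Real.log_le_log (mul_pos hM (Real.exp_pos _)) hcon.le
      rw [Real.log_mul hM.ne' (Real.exp_pos _).ne', Real.log_exp] at h5
      linarith
    have h6 : Real.log (g 0) - 1 ≤ Real.log (g s) := by
      have h7 : s / y * (y / D) ≤ 1 := by
        have h8 : s / y * (y / D) = s / D := by field_simp
        rw [h8, div_le_one hD0]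
        exact hs.2
      have h9 : (1 - s / y) * Real.log (g 0) + s / y * (Real.log (g 0) - y / D) ≤
          (1 - s / y) * Real.log (g 0) + s / y * Real.log (g y) := by
        have := mul_le_mul_of_nonneg_left h4 hs0
        linarith
      have h10 : (1 - s / y) * Real.log (g 0) + s / y * (Real.log (g 0) - y / D) =
          Real.log (g 0) - s / y * (y / D) := by ring
      linarith
    have h11 : Real.exp (Real.log (g 0) - 1) ≤ g s := by
      rw [← Real.exp_log (h.pos s)]
      exact Real.exp_le_exp.2 h6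
    rwa [sub_eq_add_neg, Real.exp_add, Real.exp_log hM] at h11
  have h2 : D * (g 0 * Real.exp (-1)) ≤ 1 := by
    have h3 : ∫ _x in Icc 0 D, g 0 * Real.exp (-1) ≤ ∫ x in Icc 0 D, g x := by
      refine setIntegral_mono_on ?_ h.int.integrableOn measurableSet_Icc hlow
      exact continuous_const.integrableOn_Icc
    rw [setIntegral_const, Real.volume_real_Icc_of_le hD0.le, sub_zero, smul_eq_mul] at h3
    have h4 : ∫ x in Icc 0 D, g x ≤ ∫ x, g x :=
      setIntegral_le_integral h.int (Eventually.of_forall fun x => (h.pos x).le)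
    rw [h1] at h4
    exact h3.trans h4
  have h3 : D * (g 0 * Real.exp (-1)) = 14 / 5 * Real.exp (-1) := by
    rw [hD]
    field_simp
  have h4 : 1 < 14 / 5 * Real.exp (-1) := by
    have h5 := Real.exp_one_lt_d9
    rw [Real.exp_neg, ← div_eq_mul_inv, lt_div_iff₀ (Real.exp_pos _)]
    linarith
  rw [h3] at h2
  linarith

private theorem Sec_gamma {D : ℝ} (hD : 0 < D) :
    ∫ t in Ioi (0 : ℝ), t ^ 2 * Real.exp (-(t / D)) = 2 * D ^ 3 := by
  have h1 := Real.integral_rpow_mul_exp_neg_mul_Ioi (a := 3) (r := 1 / D) (by norm_num) (by positivity)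
  have h2 : Real.Gamma 3 = 2 := by
    have h3 := Real.Gamma_nat_eq_factorial 2
    have h4 : ((2 : ℕ) : ℝ) + 1 = 3 := by norm_num
    rw [h4] at h3
    rw [h3]
    norm_num [Nat.factorial]
  rw [h2, one_div_one_div] at h1
  have h4 : D ^ (3 : ℝ) = D ^ 3 := by
    rw [← Real.rpow_natCast]
    norm_num
  rw [h4, mul_comm] at h1
  rw [← h1]
  refine setIntegral_congr_fun measurableSet_Ioi fun t ht => ?_
  have h5 : t ^ ((3 : ℝ) - 1) = t ^ 2 := by
    rw [← Real.rpow_natCast]
    norm_num
  show t ^ 2 * Real.exp (-(t / D)) = t ^ ((3 : ℝ) - 1) * Real.exp (-(1 / D * t))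
  rw [h5]
  congr 2
  ring

theorem sec_bound (f : ℝ → ℝ) (h : PosLC f) (h1 : ∫ x, f x = 1) (a : ℝ)
    (hmax : ∀ x, f x ≤ f a) :
    Integrable (fun x => (x - a) ^ 2 * f x) ∧ ∫ x, (x - a) ^ 2 * f x ≤ 100 / f a ^ 2 := by
  obtain ⟨M, hM⟩ : ∃ M, M = f a := ⟨_, rfl⟩
  obtain ⟨D, hD⟩ : ∃ D : ℝ, D = 14 / 5 / M := ⟨_, rfl⟩
  have hM0 : 0 < M := by
    rw [hM]
    exact h.pos a
  have hD0 : 0 < D := by
    rw [hD]
    positivity
  have hdec : ∀ x, D ≤ |x - a| → f x ≤ M * Real.exp (-(|x - a| / D)) := by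
    intro x hx
    rcases le_total 0 (x - a) with h2 | h2
    · rw [abs_of_nonneg h2] at hx ⊢
      have h3 := Sec_dec (fun x => f (a + x)) (Sec_shift f h a)
        (by rw [integral_add_left_eq_self f a]; exact h1) (D := D) (y := x - a)
        (by rw [hD, hM, add_zero]) hx
      simp only [add_zero, add_sub_cancel] at h3
      rw [hM]
      exact h3
    · rw [abs_of_nonpos h2] at hx ⊢
      have h3 := Sec_dec (fun x => f (a - x)) (Sec_refl f h a)
        (by rw [integral_sub_left_eq_self f volume a]; exact h1) (D := D) (y := -(x - a))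
        (by rw [hD, hM, sub_zero]) hx
      have h4 : a - -(x - a) = x := by ring
      simp only [sub_zero, h4] at h3
      rw [hM]
      exact h3
  obtain ⟨φ, hφ⟩ : ∃ φ : ℝ → ℝ, φ = fun t => t ^ 2 * Real.exp (-(t / D)) := ⟨_, rfl⟩
  have hφi : ∫ x, φ |x - a| = 4 * D ^ 3 := by
    rw [integral_sub_right_eq_self (fun x => φ |x|) a, integral_comp_abs, hφ, Sec_gamma hD0]
    ring
  have hφn : Integrable (fun x => φ |x - a|) := by
    by_contra hcon
    rw [integral_undef hcon] at hφi
    have : 0 < 4 * D ^ 3 := by positivity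
    linarith
  have hpt : ∀ x, (x - a) ^ 2 * f x ≤ D ^ 2 * f x + M * φ |x - a| := by
    intro x
    have hφ0 : 0 ≤ M * φ |x - a| := by
      rw [hφ]
      positivity
    rcases le_total |x - a| D with h2 | h2
    · have h3 : (x - a) ^ 2 ≤ D ^ 2 := by
        rw [← sq_abs (x - a)]
        exact pow_le_pow_left₀ (abs_nonneg _) h2 2
      have h4 := mul_le_mul_of_nonneg_right h3 (h.pos x).le
      linarith
    · have h3 := mul_le_mul_of_nonneg_left (hdec x h2) (sq_nonneg (x - a))
      have h4 : (x - a) ^ 2 * (M * Real.exp (-(|x - a| / D))) = M * φ |x - a| := by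
        rw [hφ]
        show (x - a) ^ 2 * (M * Real.exp (-(|x - a| / D))) =
          M * (|x - a| ^ 2 * Real.exp (-(|x - a| / D)))
        rw [sq_abs]
        ring
      have h5 : 0 ≤ D ^ 2 * f x := mul_nonneg (sq_nonneg _) (h.pos x).le
      linarith
  have hbi : Integrable (fun x => D ^ 2 * f x + M * φ |x - a|) :=
    (h.int.const_mul _).add (hφn.const_mul _)
  have hfi : Integrable (fun x => (x - a) ^ 2 * f x) := by
    refine hbi.mono' ?_ (Eventually.of_forall fun x => ?_)
    · exact (Continuous.mul (by fun_prop) h.cont).aestronglyMeasurable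
    · rw [Real.norm_of_nonneg (mul_nonneg (sq_nonneg _) (h.pos x).le)]
      exact hpt x
  refine ⟨hfi, ?_⟩
  calc ∫ x, (x - a) ^ 2 * f x ≤ ∫ x, (D ^ 2 * f x + M * φ |x - a|) := integral_mono hfi hbi hpt
    _ = D ^ 2 + M * (4 * D ^ 3) := by
      rw [integral_add (h.int.const_mul _) (hφn.const_mul _), integral_const_mul, integral_const_mul, h1, hφi,
        mul_one]
    _ = (14 / 5) ^ 2 / M ^ 2 + 4 * (14 / 5) ^ 3 / M ^ 2 := by
      rw [hD]
      field_simp
    _ ≤ 100 / f a ^ 2 := by
      rw [← hM, ← add_div]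
      refine div_le_div_of_nonneg_right (by norm_num) (by positivity)

end Pool.Agent.Lib.MP_a80c92_pr
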