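import Pool.Agent.Lib.MP_a80c92_pr.Defs2

/-! # JOB N/Tlt: exponential tilts; scaling of strongly unimodal laws

PROOF. `tiltf θ f = e^{θx} f x / Z`, `Z = ∫ e^{θy} f y dy > 0`: continuous, positive, integrable,
integral one; the four point inequality: the exponential factors are
`e^{θx} e^{θ(y+t)} = e^{θ(x+t)} e^{θy}`. `su_scale`: for unimodal `G`:
`(μ.map (c * ·)) ∗ G = (μ ∗ (G.map (c⁻¹ * ·))).map (c * ·)` (`map_conv_continuousLinearMap` or
`Measure.map_conv_addMonoidHom`), and the image of a unimodal law under `x ↦ c x`, `c > 0`, is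
unimodal: `dfn (H.map (c * ·)) x = dfn H (x/c)`, mode `c a`. -/

open MeasureTheory Set Filter Topology ProbabilityTheory
open scoped ENNReal NNReal

namespace Pool.Agent.Lib.MP_a80c92_pr

theorem tilt_posLC (f : ℝ → ℝ) (h : PosLC f) (θ : ℝ)
    (hint : Integrable (fun x => Real.exp (θ * x) * f x)) :
    PosLC (tiltf θ f) ∧ ∫ x, tiltf θ f x = 1 := by
  obtain ⟨Z, hZ⟩ : ∃ Z : ℝ, Z = ∫ y, Real.exp (θ * y) * f y := ⟨_, rfl⟩
  have hfun : tiltf θ f = fun x => Real.exp (θ * x) * f x / Z := by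
    funext x
    unfold tiltf
    rw [hZ]
  have hpos : ∀ x, 0 < Real.exp (θ * x) * f x := fun x => mul_pos (Real.exp_pos _) (h.pos x)
  have hZ0 : 0 < Z := by
    rw [hZ, integral_pos_iff_support_of_nonneg (fun x => (hpos x).le) hint]
    have h1 : Function.support (fun x => Real.exp (θ * x) * f x) = univ := by
      ext x
      simp only [Function.mem_support, mem_univ, iff_true]
      exact (hpos x).ne'
    rw [h1, Real.volume_univ]
    exact ENNReal.zero_lt_top
  rw [hfun]
  refine ⟨⟨?_, fun x => div_pos (hpos x) hZ0, ?_, hint.div_const Z⟩, ?_⟩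
  · exact ((Real.continuous_exp.comp (continuous_const.mul continuous_id)).mul h.cont).div_const Z
  · intro x y t hxy ht
    have h1 := h.lc x y t hxy ht
    have h2 : Real.exp (θ * x) * Real.exp (θ * (y + t)) = Real.exp (θ * (x + t)) * Real.exp (θ * y) := by
      rw [← Real.exp_add, ← Real.exp_add]
      ring_nf
    have h3 : 0 ≤ Real.exp (θ * (x + t)) * Real.exp (θ * y) := (mul_pos (Real.exp_pos _) (Real.exp_pos _)).le
    rw [div_mul_div_comm, div_mul_div_comm]
    refine div_le_div_of_nonneg_right ?_ (mul_pos hZ0 hZ0).le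
    calc Real.exp (θ * x) * f x * (Real.exp (θ * (y + t)) * f (y + t))
        = (Real.exp (θ * x) * Real.exp (θ * (y + t))) * (f x * f (y + t)) := by ring
      _ = (Real.exp (θ * (x + t)) * Real.exp (θ * y)) * (f x * f (y + t)) := by rw [h2]
      _ ≤ (Real.exp (θ * (x + t)) * Real.exp (θ * y)) * (f (x + t) * f y) := mul_le_mul_of_nonneg_left h1 h3
      _ = Real.exp (θ * (x + t)) * f (x + t) * (Real.exp (θ * y) * f y) := by ring
  · rw [integral_div, ← hZ, div_self hZ0.ne']

private theorem Tlt_dfn (μ : Measure ℝ) (c : ℝ) (hc : 0 < c) :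
    dfn (μ.map (fun x => c * x)) = fun x => dfn μ (c⁻¹ * x) := by
  funext x
  unfold dfn
  have hm : Measurable (fun x : ℝ => c * x) := measurable_const.mul measurable_id
  rw [measureReal_def, measureReal_def, Measure.map_apply hm measurableSet_Iic]
  have h1 : (fun x : ℝ => c * x) ⁻¹' Iic x = Iic (c⁻¹ * x) := by
    ext y
    rw [mem_preimage, mem_Iic, mem_Iic, le_inv_mul_iff₀ hc]
  rw [h1]

theorem unimodal_scale (μ : Measure ℝ) [IsProbabilityMeasure μ] (c : ℝ) (hc : 0 < c)
    (h : Unimodal μ) : Unimodal (μ.map (fun x => c * x)) := by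
  obtain ⟨a, h1, h2⟩ := h
  refine ⟨c * a, ?_, ?_⟩
  · have h3 := h1.comp_linearMap (LinearMap.mulLeft ℝ c⁻¹)
    have h4 : (LinearMap.mulLeft ℝ c⁻¹) ⁻¹' Iio a = Iio (c * a) := by
      ext y
      rw [mem_preimage, mem_Iio, mem_Iio, LinearMap.mulLeft_apply, inv_mul_lt_iff₀ hc]
    rw [h4] at h3
    rw [Tlt_dfn μ c hc]
    exact h3
  · have h3 := h2.comp_linearMap (LinearMap.mulLeft ℝ c⁻¹)
    have h4 : (LinearMap.mulLeft ℝ c⁻¹) ⁻¹' Ioi a = Ioi (c * a) := by
      ext y
      rw [mem_preimage, mem_Ioi, mem_Ioi, LinearMap.mulLeft_apply, lt_inv_mul_iff₀ hc]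
    rw [h4] at h3
    rw [Tlt_dfn μ c hc]
    exact h3

theorem su_scale (μ : Measure ℝ) [IsProbabilityMeasure μ] (c : ℝ) (hc : 0 < c)
    (h : StronglyUnimodal μ) : StronglyUnimodal (μ.map (fun x => c * x)) := by
  intro G hG hGu
  have hm : Measurable (fun x : ℝ => c * x) := measurable_const.mul measurable_id
  have hm' : Measurable (fun x : ℝ => c⁻¹ * x) := measurable_const.mul measurable_id
  have hP : IsProbabilityMeasure (G.map (fun x => c⁻¹ * x)) := Measure.isProbabilityMeasure_map hm'.aemeasurable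
  have h1 := h (G.map (fun x => c⁻¹ * x)) hP (unimodal_scale G c⁻¹ (inv_pos.2 hc) hGu)
  have h2 := unimodal_scale (μ ∗ G.map (fun x => c⁻¹ * x)) c hc h1
  have h3 := Measure.map_conv_continuousLinearMap (μ := μ) (ν := G.map (fun x => c⁻¹ * x))
    (ContinuousLinearMap.mul ℝ ℝ c)
  have h4 : (⇑(ContinuousLinearMap.mul ℝ ℝ c)) = fun x : ℝ => c * x := by
    funext x
    exact ContinuousLinearMap.mul_apply' ℝ ℝ c x
  rw [h4] at h3
  have h5 : (G.map (fun x => c⁻¹ * x)).map (fun x => c * x) = G := by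
    rw [Measure.map_map hm hm']
    have h6 : ((fun x : ℝ => c * x) ∘ fun x => c⁻¹ * x) = id := by
      funext x
      exact mul_inv_cancel_left₀ hc.ne' x
    rw [h6, Measure.map_id]
  rw [h5] at h3
  rw [h3] at h2
  exact h2

end Pool.Agent.Lib.MP_a80c92_pr
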