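import Pool.Agent.Lib.MP_a80c92_pr.Defs2

/-! # JOB N/VLow: the variance seen from the modulus of the characteristic function

PROOF. `1 - ‖charFun P u‖² = ∫∫ (1 - cos (u (x-x'))) dP dP ≤ (u²/2) ∫∫ (x-x')² dP dP
≤ (u²/2) ∫∫ 2 ((x-a)² + (x'-a)²) = 2 u² ∫ (x-a)² dP ≤ 2 u² D`
(`‖∫ e^{iux} dP‖² = ∫∫ cos (u(x-x'))`: real and imaginary parts, `cos (A-B)`; or avoid double integrals:
with `φ = E e^{iu(X-a)}`, `‖φ‖ ≥ Re φ = E cos (u(X-a)) ≥ 1 - u² D/2`, so
`1 - ‖φ‖² ≤ 1 - (1 - u²D/2)² ≤ u² D` for `u² D ≤ 2`: this is simpler and stronger.) So with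
`Ψ u = A u²/2 + ∫ (1 - cos (u x)) dκ ≥ 0`: `(1 - e^{-2Ψ u})/u² ≤ 2D` for small `u ≠ 0`. As `u → 0`:
`Ψ u/u² → (A + ∫ x² dκ)/2` (dominated convergence: `(1 - cos (ux))/u² ≤ x²/2`, `→ x²/2`), `Ψ u → 0`,
so `(1 - e^{-2Ψ u})/u² → A + ∫ x² dκ`. -/

open MeasureTheory Set Filter Topology ProbabilityTheory
open scoped ENNReal NNReal

namespace Pool.Agent.Lib.MP_a80c92_pr

private theorem VLow_phi (P : Measure ℝ) [IsProbabilityMeasure P] (D a u : ℝ)
    (hD : Integrable (fun x : ℝ => (x - a) ^ 2) P) (hDb : ∫ x, (x - a) ^ 2 ∂P ≤ D) :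
    1 - u ^ 2 * D / 2 ≤ ‖charFun P u‖ := by
  obtain ⟨E, hE⟩ : ∃ E : ℝ → ℂ, E = fun x => Complex.exp ((u * (x - a) : ℝ) * Complex.I) := ⟨_, rfl⟩
  have hEc : Continuous E := by
    rw [hE]
    fun_prop
  have hEi : Integrable E P := by
    refine Integrable.of_bound hEc.aestronglyMeasurable 1 (Eventually.of_forall fun x => ?_)
    rw [hE]
    exact (Complex.norm_exp_ofReal_mul_I _).le
  have h1 : ∫ x, E x ∂P = Complex.exp ((-(u * a) : ℝ) * Complex.I) * charFun P u := by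
    rw [charFun_apply_real, ← integral_const_mul]
    refine integral_congr_ae (Eventually.of_forall fun x => ?_)
    show E x = Complex.exp ((-(u * a) : ℝ) * Complex.I) * Complex.exp (u * x * Complex.I)
    have h0 : E x = Complex.exp ((u * (x - a) : ℝ) * Complex.I) := by rw [hE]
    rw [h0, ← Complex.exp_add]
    congr 1
    push_cast
    ring
  have h2 : ‖∫ x, E x ∂P‖ = ‖charFun P u‖ := by
    rw [h1, norm_mul, Complex.norm_exp_ofReal_mul_I, one_mul]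
  have h3 : (∫ x, E x ∂P).re = ∫ x, Real.cos (u * (x - a)) ∂P := by
    have h4 := Complex.reCLM.integral_comp_comm hEi
    rw [Complex.reCLM_apply] at h4
    rw [← h4]
    refine integral_congr_ae (Eventually.of_forall fun x => ?_)
    show (E x).re = Real.cos (u * (x - a))
    rw [hE]
    exact Complex.exp_ofReal_mul_I_re _
  have hi1 : Integrable (fun x : ℝ => 1 - u ^ 2 / 2 * (x - a) ^ 2) P :=
    (integrable_const 1).sub (hD.const_mul _)
  have hi2 : Integrable (fun x : ℝ => Real.cos (u * (x - a))) P := by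
    refine Integrable.of_bound (by fun_prop) 1 (Eventually.of_forall fun x => ?_)
    exact Real.abs_cos_le_one _
  have h5 : ∫ x, (1 - u ^ 2 / 2 * (x - a) ^ 2) ∂P ≤ ∫ x, Real.cos (u * (x - a)) ∂P := by
    refine integral_mono hi1 hi2 fun x => ?_
    have h6 := Real.one_sub_sq_div_two_le_cos (x := u * (x - a))
    have h7 : 1 - u ^ 2 / 2 * (x - a) ^ 2 = 1 - (u * (x - a)) ^ 2 / 2 := by ring
    show 1 - u ^ 2 / 2 * (x - a) ^ 2 ≤ Real.cos (u * (x - a))
    rw [h7]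
    exact h6
  have h8 : ∫ x, (1 - u ^ 2 / 2 * (x - a) ^ 2) ∂P = 1 - u ^ 2 / 2 * ∫ x, (x - a) ^ 2 ∂P := by
    rw [integral_sub (integrable_const 1) (hD.const_mul _), integral_const, integral_const_mul,
      probReal_univ, one_smul]
  have h9 : u ^ 2 / 2 * ∫ x, (x - a) ^ 2 ∂P ≤ u ^ 2 / 2 * D :=
    mul_le_mul_of_nonneg_left hDb (by positivity)
  calc 1 - u ^ 2 * D / 2 ≤ 1 - u ^ 2 / 2 * ∫ x, (x - a) ^ 2 ∂P := by linarith
    _ ≤ ∫ x, Real.cos (u * (x - a)) ∂P := by rw [← h8]; exact h5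
    _ = (∫ x, E x ∂P).re := h3.symm
    _ ≤ ‖∫ x, E x ∂P‖ := Complex.re_le_norm _
    _ = ‖charFun P u‖ := h2

private theorem VLow_sinc {u : ℝ} (hu : u ≠ 0) (x : ℝ) :
    (1 - Real.cos (u * x)) / u ^ 2 = x ^ 2 / 2 * Real.sinc (u * x / 2) ^ 2 := by
  have h1 : Real.cos (u * x) = 1 - 2 * Real.sin (u * x / 2) ^ 2 := by
    have h2 : u * x = 2 * (u * x / 2) := by ring
    rw [h2, Real.cos_two_mul, Real.cos_sq']
    have h3 : 2 * (u * x / 2) / 2 = u * x / 2 := by ring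
    rw [h3]
    ring
  rw [h1]
  by_cases hx : x = 0
  · subst hx
    simp
  · have hy : u * x / 2 ≠ 0 := div_ne_zero (mul_ne_zero hu hx) two_ne_zero
    rw [Real.sinc_of_ne_zero hy]
    field_simp
    ring

theorem var_low (P : Measure ℝ) [IsProbabilityMeasure P] (κ : Measure ℝ) (A D a : ℝ)
    (hA : 0 ≤ A) (hκ : Integrable (fun x : ℝ => x ^ 2) κ)
    (hcf : ∀ u : ℝ, ‖charFun P u‖ =
      Real.exp (-(A * u ^ 2 / 2 + ∫ x, (1 - Real.cos (u * x)) ∂κ)))
    (hD : Integrable (fun x : ℝ => (x - a) ^ 2) P) (hDb : ∫ x, (x - a) ^ 2 ∂P ≤ D) :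
    A + ∫ x, x ^ 2 ∂κ ≤ 2 * D := by
  have hD0 : 0 ≤ D := le_trans (integral_nonneg fun x => sq_nonneg (x - a)) hDb
  obtain ⟨u, hu⟩ : ∃ u : ℕ → ℝ, u = fun n : ℕ => 1 / ((n : ℝ) + 1) := ⟨_, rfl⟩
  have hu0 : ∀ n, 0 < u n := fun n => by
    rw [hu]
    positivity
  have hut : Tendsto u atTop (𝓝 0) := by
    rw [hu]
    exact tendsto_one_div_add_atTop_nhds_zero_nat
  obtain ⟨I, hI⟩ : ∃ I : ℕ → ℝ, I = fun n => ∫ x, (1 - Real.cos (u n * x)) / u n ^ 2 ∂κ := ⟨_, rfl⟩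
  have hIt : Tendsto I atTop (𝓝 (∫ x, x ^ 2 / 2 ∂κ)) := by
    rw [hI]
    refine tendsto_integral_of_dominated_convergence (fun x => x ^ 2 / 2) ?_ (hκ.div_const 2) ?_ ?_
    · intro n
      exact (by fun_prop : Continuous fun x : ℝ => (1 - Real.cos (u n * x)) / u n ^ 2).aestronglyMeasurable
    · intro n
      refine Eventually.of_forall fun x => ?_
      have h1 := Real.one_sub_sq_div_two_le_cos (x := u n * x)
      have h2 := Real.cos_le_one (u n * x)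
      have h3 : 0 < u n ^ 2 := pow_pos (hu0 n) 2
      rw [Real.norm_of_nonneg (div_nonneg (by linarith) h3.le), div_le_iff₀ h3]
      nlinarith
    · refine Eventually.of_forall fun x => ?_
      have h1 : Tendsto (fun n => u n * x / 2) atTop (𝓝 0) := by
        have h2 := (hut.mul_const x).div_const 2
        rwa [zero_mul, zero_div] at h2
      have h3 : Tendsto (fun n => x ^ 2 / 2 * Real.sinc (u n * x / 2) ^ 2) atTop
          (𝓝 (x ^ 2 / 2 * Real.sinc 0 ^ 2)) :=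
        (((Real.continuous_sinc.tendsto 0).comp h1).pow 2).const_mul _
      rw [Real.sinc_zero, one_pow, mul_one] at h3
      exact h3.congr fun n => (VLow_sinc (hu0 n).ne' x).symm
  have hΨ : ∀ n, A * u n ^ 2 / 2 + ∫ x, (1 - Real.cos (u n * x)) ∂κ = u n ^ 2 * (A / 2 + I n) := by
    intro n
    have h1 : ∫ x, (1 - Real.cos (u n * x)) ∂κ = u n ^ 2 * I n := by
      rw [hI]
      show _ = u n ^ 2 * ∫ x, (1 - Real.cos (u n * x)) / u n ^ 2 ∂κ
      rw [← integral_const_mul]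
      refine integral_congr_ae (Eventually.of_forall fun x => ?_)
      show 1 - Real.cos (u n * x) = u n ^ 2 * ((1 - Real.cos (u n * x)) / u n ^ 2)
      rw [mul_div_cancel₀ _ (pow_ne_zero 2 (hu0 n).ne')]
    rw [h1]
    ring
  have hI0 : ∀ n, 0 ≤ I n := by
    intro n
    rw [hI]
    refine integral_nonneg fun x => ?_
    have h2 := Real.cos_le_one (u n * x)
    exact div_nonneg (by linarith) (sq_nonneg _)
  have key : ∀ n, A / 2 + I n ≤ (1 + u n ^ 2 * (A / 2 + I n)) * D / 2 := by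
    intro n
    obtain ⟨w, hw⟩ : ∃ w, w = A / 2 + I n := ⟨_, rfl⟩
    have hw0 : 0 ≤ w := by
      rw [hw]
      have := hI0 n
      linarith
    have h1 := VLow_phi P D a (u n) hD hDb
    rw [hcf, hΨ, ← hw] at h1
    rw [← hw]
    have h2 : 0 < u n ^ 2 := pow_pos (hu0 n) 2
    have h3 : (1 + u n ^ 2 * w) * Real.exp (-(u n ^ 2 * w)) ≤ 1 := by
      have h4 := Real.add_one_le_exp (u n ^ 2 * w)
      calc (1 + u n ^ 2 * w) * Real.exp (-(u n ^ 2 * w)) ≤
          Real.exp (u n ^ 2 * w) * Real.exp (-(u n ^ 2 * w)) :=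
            mul_le_mul_of_nonneg_right (by linarith) (Real.exp_pos _).le
        _ = 1 := by rw [← Real.exp_add, add_neg_cancel, Real.exp_zero]
    have h5 : (1 + u n ^ 2 * w) * (1 - u n ^ 2 * D / 2) ≤ 1 :=
      (mul_le_mul_of_nonneg_left h1 (by positivity)).trans h3
    have h6 : u n ^ 2 * w ≤ u n ^ 2 * ((1 + u n ^ 2 * w) * D / 2) := by
      nlinarith
    exact le_of_mul_le_mul_left h6 h2
  have l1 : Tendsto (fun n => A / 2 + I n) atTop (𝓝 (A / 2 + ∫ x, x ^ 2 / 2 ∂κ)) := hIt.const_add _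
  have l2 : Tendsto (fun n => (1 + u n ^ 2 * (A / 2 + I n)) * D / 2) atTop
      (𝓝 ((1 + 0 ^ 2 * (A / 2 + ∫ x, x ^ 2 / 2 ∂κ)) * D / 2)) :=
    ((((hut.pow 2).mul l1).const_add 1).mul_const D).div_const 2
  have h1 := le_of_tendsto_of_tendsto' l1 l2 key
  rw [integral_div] at h1
  have h2 : (1 + 0 ^ 2 * (A / 2 + (∫ x, x ^ 2 ∂κ) / 2)) * D / 2 = D / 2 := by ring
  rw [h2] at h1
  linarith

end Pool.Agent.Lib.MP_a80c92_pr
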