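import Pool.Agent.Lib.MP_a80c92_pr.NecA
import Pool.Agent.Lib.MP_a80c92_pr.N.Osc
import Pool.Agent.Lib.MP_a80c92_pr.N.Sec
import Pool.Agent.Lib.MP_a80c92_pr.N.Tlt
import Pool.Agent.Lib.MP_a80c92_pr.N.CxB
import Pool.Agent.Lib.MP_a80c92_pr.N.VLow

/-! # Theorem N, assembly -/

open MeasureTheory Set Filter Topology ProbabilityTheory
open scoped ENNReal NNReal

namespace Pool.Agent.Lib.MP_a80c92_pr

theorem nm_norm_cexp (τ u x : ℝ) :
    ‖Complex.exp (((τ : ℂ) + u * Complex.I) * x)‖ = Real.exp (τ * x) := by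
  rw [Complex.norm_exp]
  congr 1
  simp

/-- Integrability and value of `e^{zx}`, `z = τ + iu`, for `c X + N(0,1)`. -/
theorem nm_conv (μ : Measure ℝ) [IsProbabilityMeasure μ] (c τ u : ℝ)
    (hint : Integrable (fun x : ℝ => Real.exp (τ * (c * x))) μ) :
    Integrable (fun x : ℝ => Real.exp (τ * x)) (μ.map (fun x => c * x) ∗ gaussianReal 0 1) ∧
    ∫ x : ℝ, Complex.exp (((τ : ℂ) + u * Complex.I) * x)
      ∂(μ.map (fun x => c * x) ∗ gaussianReal 0 1) =
      (∫ x : ℝ, Complex.exp (((τ : ℂ) + u * Complex.I) * (c * x)) ∂μ) *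
        Complex.exp (((τ : ℂ) + u * Complex.I) ^ 2 / 2) := by
  have iμ : IsProbabilityMeasure (μ.map (fun x => c * x)) :=
    Measure.isProbabilityMeasure_map (by fun_prop)
  have h1 : ∫⁻ x, ENNReal.ofReal (Real.exp (τ * x)) ∂(μ.map (fun x => c * x)) < ∞ := by
    rw [lintegral_map (by fun_prop) (by fun_prop)]
    exact hint.lintegral_lt_top
  have h2 : ∫⁻ x, ENNReal.ofReal (Real.exp (τ * x)) ∂(gaussianReal 0 1) < ∞ :=
    (integrable_exp_mul_gaussianReal (μ := 0) (v := 1) τ).lintegral_lt_top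
  have hi : Integrable (fun x : ℝ => Real.exp (τ * x))
      (μ.map (fun x => c * x) ∗ gaussianReal 0 1) := by
    refine ⟨by fun_prop, ?_⟩
    rw [hasFiniteIntegral_iff_ofReal (Filter.Eventually.of_forall fun x => (Real.exp_pos _).le),
      expup_mul]
    exact ENNReal.mul_lt_top h1 h2
  refine ⟨hi, ?_⟩
  have hi2 : Integrable (fun x : ℝ => Complex.exp (((τ : ℂ) + u * Complex.I) * x))
      (μ.map (fun x => c * x) ∗ gaussianReal 0 1) := by
    refine hi.mono' (by fun_prop) (Filter.Eventually.of_forall fun x => ?_)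
    rw [nm_norm_cexp]
  rw [integral_conv hi2]
  have e1 : ∀ x y : ℝ, Complex.exp (((τ : ℂ) + u * Complex.I) * ((x + y : ℝ) : ℂ)) =
      Complex.exp (((τ : ℂ) + u * Complex.I) * x) *
        Complex.exp (((τ : ℂ) + u * Complex.I) * y) := by
    intro x y; rw [← Complex.exp_add]; congr 1; push_cast; ring
  simp only [e1]
  have e2 : ∀ x : ℝ, ∫ y : ℝ, Complex.exp (((τ : ℂ) + u * Complex.I) * x) *
        Complex.exp (((τ : ℂ) + u * Complex.I) * y) ∂(gaussianReal 0 1) =
      Complex.exp (((τ : ℂ) + u * Complex.I) * x) *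
        Complex.exp (((τ : ℂ) + u * Complex.I) ^ 2 / 2) := by
    intro x
    rw [integral_const_mul]
    congr 1
    have := complexMGF_id_gaussianReal (μ := 0) (v := 1) ((τ : ℂ) + u * Complex.I)
    unfold complexMGF at this
    simp only [id] at this
    rw [this]
    congr 1
    push_cast
    ring
  simp only [e2]
  rw [integral_mul_const, integral_map (by fun_prop) (by fun_prop)]
  congr 1
  refine integral_congr_ae (Filter.Eventually.of_forall fun x => ?_)
  simp only
  push_cast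
  rfl

theorem nm_density (f : ℝ → ℝ) (hf : Continuous f) (h0 : ∀ x, 0 ≤ f x) (F : ℝ → ℂ) :
    ∫ x, F x ∂(volume.withDensity (fun x => ENNReal.ofReal (f x))) = ∫ x, F x * (f x : ℂ) := by
  rw [integral_withDensity_eq_integral_toReal_smul hf.measurable.ennreal_ofReal
    (Filter.Eventually.of_forall fun x => ENNReal.ofReal_lt_top)]
  refine integral_congr_ae (Filter.Eventually.of_forall fun x => ?_)
  simp only
  rw [ENNReal.toReal_ofReal (h0 x), Complex.real_smul, mul_comm]

theorem Psi_zero (s2 : ℝ) (ν : Measure ℝ) (θ : ℝ) : Psi s2 ν θ 0 = 0 := by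
  unfold Psi; simp

theorem Vt_pos (s2 : ℝ) (hs2 : 0 ≤ s2) (ν : Measure ℝ) (h : IsLevy ν) (θ : ℝ)
    (hd : InDom ν θ) (hne : s2 ≠ 0 ∨ ν ≠ 0) : 0 < Vt s2 ν θ := by
  have h0 : ∀ x : ℝ, 0 ≤ x ^ 2 * Real.exp (θ * x) := fun x => by positivity
  unfold Vt
  have h1 : 0 ≤ ∫ x, x ^ 2 * Real.exp (θ * x) ∂ν := integral_nonneg h0
  rcases hs2.eq_or_lt with hs | hs
  · have hν : ν ≠ 0 := by
      rcases hne with h2 | h2
      · exact absurd hs.symm h2
      · exact h2
    have h3 : 0 < ∫ x, x ^ 2 * Real.exp (θ * x) ∂ν := by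
      rw [integral_pos_iff_support_of_nonneg h0 (int_tilt_sq ν h θ hd)]
      have hsup : Function.support (fun x : ℝ => x ^ 2 * Real.exp (θ * x)) = {(0 : ℝ)}ᶜ := by
        ext x
        simp only [Function.mem_support, ne_eq, mul_eq_zero, pow_eq_zero_iff, not_or,
          mem_compl_iff, mem_singleton_iff, OfNat.ofNat_ne_zero, not_false_eq_true]
        constructor
        · exact fun h => h.1
        · exact fun h => ⟨h, (Real.exp_pos _).ne'⟩
      rw [hsup]
      have hu : ν univ ≠ 0 := by rwa [ne_eq, Measure.measure_univ_eq_zero]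
      have : ν univ ≤ ν {(0 : ℝ)}ᶜ + ν {0} := by
        rw [← Set.compl_union_self {(0 : ℝ)}]; exact measure_union_le _ _
      rw [h.zero, add_zero] at this
      exact lt_of_lt_of_le (pos_iff_ne_zero.2 hu) this
    linarith
  · linarith

theorem thmN_aux (μ : Measure ℝ) [IsProbabilityMeasure μ] (g s2 : ℝ) (ν : Measure ℝ)
    (h : HasTriple μ g s2 ν) (hsu : StronglyUnimodal μ) (hne : s2 ≠ 0 ∨ ν ≠ 0) (θ : ℝ)
    (hd : InDom ν θ) (c : ℝ) (hc : 0 < c) (t : ℝ) (ht : t ≠ 0) :
    Real.exp (-(Psi s2 ν θ t + t ^ 2 / (2 * c ^ 2))) ≤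
      5 * Real.sqrt 200 / (|t| * Real.sqrt (Vt s2 ν θ)) := by
  have hlev := h.levy
  have hs2 := h.s2_nonneg
  have hV := Vt_pos s2 hs2 ν hlev θ hd hne
  set ρ := μ.map (fun x => c * x) with hρ
  have iρ : IsProbabilityMeasure ρ := Measure.isProbabilityMeasure_map (by fun_prop)
  have suρ : StronglyUnimodal ρ := su_scale μ c hc hsu
  set f := gd ρ with hf
  have plc : PosLC f := posLC_gd ρ suρ
  set τ := θ / c with hτ
  have hτc : τ * c = θ := by rw [hτ]; field_simp
  have hmom : Integrable (fun x : ℝ => Real.exp (τ * (c * x))) μ := by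
    have := (cx_moment μ g s2 ν h θ 0 hd).1
    simpa only [← mul_assoc, hτc] using this
  have hden : ρ ∗ gaussianReal 0 1 = volume.withDensity (fun x => ENNReal.ofReal (f x)) :=
    conv_gauss ρ
  -- the complex moments of the density
  have hval : ∀ u : ℝ, ∫ x : ℝ, Complex.exp (((τ : ℂ) + u * Complex.I) * x) * (f x : ℂ) =
      Complex.exp (psiC g s2 ν (θ + ((u * c : ℝ) : ℂ) * Complex.I)) *
        Complex.exp (((τ : ℂ) + u * Complex.I) ^ 2 / 2) := by
    intro u
    rw [← nm_density f plc.cont (fun x => (plc.pos x).le), ← hden, (nm_conv μ c τ u hmom).2]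
    congr 1
    rw [← (cx_moment μ g s2 ν h θ (u * c) hd).2]
    refine integral_congr_ae (Filter.Eventually.of_forall fun x => ?_)
    simp only
    congr 1
    have : (θ : ℂ) = (τ : ℂ) * (c : ℂ) := by rw [← hτc]; push_cast; ring
    rw [this]; push_cast; ring
  have hfi : Integrable (fun x => Real.exp (τ * x) * f x) := by
    have h1 := (nm_conv μ c τ 0 hmom).1
    rw [← hρ, hden] at h1
    have h2 := (integrable_withDensity_iff_integrable_smul'
      (plc.cont.measurable.ennreal_ofReal) (Filter.Eventually.of_forall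
        fun x => ENNReal.ofReal_lt_top)).1 h1
    refine h2.congr (Filter.Eventually.of_forall fun x => ?_)
    simp only [smul_eq_mul]
    rw [ENNReal.toReal_ofReal (plc.pos x).le, mul_comm]
  set Z : ℝ := ∫ y, Real.exp (τ * y) * f y with hZ
  obtain ⟨tl, tone⟩ := tilt_posLC f plc τ hfi
  set F := tiltf τ f with hF
  obtain ⟨a, amax, amono, aanti⟩ := posLC_mode F tl
  obtain ⟨sint, sbd⟩ := sec_bound F tl tone a amax
  have hZpos : 0 < Z := by
    have := tl.pos 0
    rw [hF, tiltf] at this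
    have hn : 0 < Real.exp (τ * 0) * f 0 := mul_pos (Real.exp_pos _) (plc.pos 0)
    by_contra hcon
    have : Real.exp (τ * 0) * f 0 / Z ≤ 0 := div_nonpos_of_nonneg_of_nonpos hn.le (not_lt.1 hcon)
    linarith
  -- the tilted law
  set P : Measure ℝ := volume.withDensity (fun x => ENNReal.ofReal (F x)) with hP
  have iP : IsProbabilityMeasure P := by
    constructor
    rw [hP, withDensity_apply _ MeasurableSet.univ, Measure.restrict_univ,
      ← ofReal_integral_eq_lintegral_ofReal tl.int (Filter.Eventually.of_forall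
        fun x => (tl.pos x).le), tone, ENNReal.ofReal_one]
  have hcfP : ∀ u : ℝ, charFun P u = (∫ x : ℝ,
      Complex.exp (((τ : ℂ) + u * Complex.I) * x) * (f x : ℂ)) / (Z : ℂ) := by
    intro u
    rw [charFun_apply_real, hP, nm_density F tl.cont (fun x => (tl.pos x).le),
      ← integral_div]
    refine integral_congr_ae (Filter.Eventually.of_forall fun x => ?_)
    simp only [hF, tiltf]
    push_cast
    have : Complex.exp (((τ : ℂ) + u * Complex.I) * x) =
        Complex.exp (u * x * Complex.I) * Complex.exp (τ * x) := by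
      rw [← Complex.exp_add]; congr 1; ring
    rw [this]
    ring
  have hnorm : ∀ u : ℝ, ‖charFun P u‖ = Real.exp (-(Psi s2 ν θ (u * c) + u ^ 2 / 2)) := by
    intro u
    have n1 : ∀ w : ℝ, ‖∫ x : ℝ, Complex.exp (((τ : ℂ) + w * Complex.I) * x) * (f x : ℂ)‖ =
        ‖Complex.exp (psiC g s2 ν θ)‖ * Real.exp (-(Psi s2 ν θ (w * c))) *
          Real.exp ((τ ^ 2 - w ^ 2) / 2) := by
      intro w
      rw [hval w, norm_mul, psi_mod g s2 ν hlev θ (w * c) hd]
      congr 1
      rw [Complex.norm_exp]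
      congr 1
      have : ((τ : ℂ) + w * Complex.I) ^ 2 / 2 =
          (((τ ^ 2 - w ^ 2) / 2 : ℝ) : ℂ) + ((τ * w : ℝ) : ℂ) * Complex.I := by
        push_cast
        linear_combination ((w : ℂ) ^ 2 / 2) * Complex.I_sq
      rw [this, Complex.add_re, Complex.ofReal_re, Complex.re_ofReal_mul, Complex.I_re, mul_zero,
        add_zero]
    have hZn : Z = ‖Complex.exp (psiC g s2 ν θ)‖ * Real.exp (τ ^ 2 / 2) := by
      have h0 := n1 0
      rw [zero_mul, Psi_zero, neg_zero, Real.exp_zero, mul_one] at h0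
      have e0 : ∫ x : ℝ, Complex.exp (((τ : ℂ) + ((0 : ℝ) : ℂ) * Complex.I) * x) * (f x : ℂ) =
          (Z : ℂ) := by
        rw [hZ, ← integral_complex_ofReal]
        refine integral_congr_ae (Filter.Eventually.of_forall fun x => ?_)
        simp only
        push_cast
        ring_nf
      rw [e0, Complex.norm_real, Real.norm_eq_abs, abs_of_pos hZpos] at h0
      rw [h0]
      congr 2
      ring
    rw [hcfP u, norm_div, n1 u, Complex.norm_real, Real.norm_eq_abs, abs_of_pos hZpos, hZn]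
    have hp : ‖Complex.exp (psiC g s2 ν θ)‖ ≠ 0 := by
      rw [Complex.norm_exp]; exact (Real.exp_pos _).ne'
    have hq : Real.exp (τ ^ 2 / 2) ≠ 0 := (Real.exp_pos _).ne'
    rw [div_eq_iff (mul_ne_zero hp hq)]
    have e3 : Real.exp (-(Psi s2 ν θ (u * c) + u ^ 2 / 2)) =
        Real.exp (-(Psi s2 ν θ (u * c))) * Real.exp (-(u ^ 2 / 2)) := by
      rw [← Real.exp_add]; congr 1; ring
    have e4 : Real.exp ((τ ^ 2 - u ^ 2) / 2) = Real.exp (τ ^ 2 / 2) * Real.exp (-(u ^ 2 / 2)) := by
      rw [← Real.exp_add]; congr 1; ring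
    rw [e3, e4]; ring
  -- lower bound of the variance
  set κ : Measure ℝ := (ν.withDensity (fun x => ENNReal.ofReal (Real.exp (θ * x)))).map
    (fun x => c * x) with hκ
  have hκint : ∀ G : ℝ → ℝ, Measurable G → ∫ y, G y ∂κ = ∫ x, G (c * x) * Real.exp (θ * x) ∂ν := by
    intro G hG
    rw [hκ, integral_map (by fun_prop) hG.aestronglyMeasurable,
      integral_withDensity_eq_integral_toReal_smul (by fun_prop)
        (Filter.Eventually.of_forall fun x => ENNReal.ofReal_lt_top)]
    refine integral_congr_ae (Filter.Eventually.of_forall fun x => ?_)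
    simp only [smul_eq_mul]
    rw [ENNReal.toReal_ofReal (Real.exp_pos _).le, mul_comm]
  have hκsq : Integrable (fun x : ℝ => x ^ 2) κ := by
    rw [hκ, integrable_map_measure (by fun_prop) (by fun_prop),
      integrable_withDensity_iff_integrable_smul' (by fun_prop)
        (Filter.Eventually.of_forall fun x => ENNReal.ofReal_lt_top)]
    have := (int_tilt_sq ν hlev θ hd).const_mul (c ^ 2)
    refine this.congr (Filter.Eventually.of_forall fun x => ?_)
    simp only [smul_eq_mul, Function.comp]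
    rw [ENNReal.toReal_ofReal (Real.exp_pos _).le]
    ring
  have hPint : Integrable (fun x : ℝ => (x - a) ^ 2) P := by
    rw [hP, integrable_withDensity_iff_integrable_smul' (tl.cont.measurable.ennreal_ofReal)
        (Filter.Eventually.of_forall fun x => ENNReal.ofReal_lt_top)]
    refine sint.congr (Filter.Eventually.of_forall fun x => ?_)
    simp only [smul_eq_mul]
    rw [ENNReal.toReal_ofReal (tl.pos x).le, mul_comm]
  have hPbd : ∫ x, (x - a) ^ 2 ∂P ≤ 100 / F a ^ 2 := by
    rw [hP, integral_withDensity_eq_integral_toReal_smul (tl.cont.measurable.ennreal_ofReal)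
        (Filter.Eventually.of_forall fun x => ENNReal.ofReal_lt_top)]
    refine le_trans (le_of_eq ?_) sbd
    refine integral_congr_ae (Filter.Eventually.of_forall fun x => ?_)
    simp only [smul_eq_mul]
    rw [ENNReal.toReal_ofReal (tl.pos x).le, mul_comm]
  have hvar := var_low P κ (c ^ 2 * s2 + 1) (100 / F a ^ 2) a (by positivity) hκsq
    (fun u => by
      rw [hnorm u, hκint (fun y => 1 - Real.cos (u * y)) (by fun_prop)]
      congr 2
      unfold Psi
      have e5 : ∀ x : ℝ, u * c * x = u * (c * x) := fun x => by ring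
      simp only [e5]
      ring) hPint hPbd
  have hκ2 : ∫ y, y ^ 2 ∂κ = c ^ 2 * ∫ x, x ^ 2 * Real.exp (θ * x) ∂ν := by
    rw [hκint (fun y => y ^ 2) (by fun_prop), ← integral_const_mul]
    refine integral_congr_ae (Filter.Eventually.of_forall fun x => ?_)
    simp only
    ring
  rw [hκ2] at hvar
  have hM : 0 < F a := tl.pos a
  have hcV : c ^ 2 * Vt s2 ν θ ≤ 200 / F a ^ 2 := by
    unfold Vt
    have : 2 * (100 / F a ^ 2) = 200 / F a ^ 2 := by ring
    rw [this] at hvar
    linarith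
  have hMle : F a * (c * Real.sqrt (Vt s2 ν θ)) ≤ Real.sqrt 200 := by
    apply Real.le_sqrt_of_sq_le
    rw [le_div_iff₀ (by positivity)] at hcV
    have : (F a * (c * Real.sqrt (Vt s2 ν θ))) ^ 2 = c ^ 2 * Vt s2 ν θ * F a ^ 2 := by
      rw [mul_pow, mul_pow, Real.sq_sqrt hV.le]; ring
    rw [this]; exact hcV
  -- conclusion
  have htc : t / c ≠ 0 := div_ne_zero ht hc.ne'
  have hosc := osc_bound F a (fun x => (tl.pos x).le) tl.int amax amono aanti (t / c) htc
  have hcf2 : ∫ x : ℝ, Complex.exp (((t / c : ℝ) : ℂ) * x * Complex.I) * (F x : ℂ) =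
      charFun P (t / c) := by
    rw [charFun_apply_real, hP, nm_density F tl.cont (fun x => (tl.pos x).le)]
  rw [hcf2, hnorm (t / c)] at hosc
  have e6 : t / c * c = t := by field_simp
  have e7 : (t / c) ^ 2 / 2 = t ^ 2 / (2 * c ^ 2) := by field_simp
  rw [e6, e7] at hosc
  refine hosc.trans ?_
  have hsV : 0 < Real.sqrt (Vt s2 ν θ) := Real.sqrt_pos.2 hV
  have habs : 0 < |t| := abs_pos.2 ht
  rw [abs_div, abs_of_pos hc, div_le_div_iff₀ (by positivity) (by positivity)]
  have := mul_le_mul_of_nonneg_left hMle (show 0 ≤ 5 * |t| / c by positivity)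
  have e8 : 5 * F a * (|t| * Real.sqrt (Vt s2 ν θ)) =
      5 * |t| / c * (F a * (c * Real.sqrt (Vt s2 ν θ))) := by field_simp
  rw [e8]
  calc 5 * |t| / c * (F a * (c * Real.sqrt (Vt s2 ν θ))) ≤ 5 * |t| / c * Real.sqrt 200 := this
    _ = 5 * Real.sqrt 200 * (|t| / c) := by ring

theorem thmN : ∃ C0 : ℝ, ∀ (μ : Measure ℝ) [IsProbabilityMeasure μ] (g s2 : ℝ)
    (ν : Measure ℝ), HasTriple μ g s2 ν → StronglyUnimodal μ → (s2 ≠ 0 ∨ ν ≠ 0) →
    ∀ θ : ℝ, InDom ν θ → ∀ t : ℝ, t ≠ 0 →
      Real.log |t| + 1 / 2 * Real.log (Vt s2 ν θ) - C0 ≤ Psi s2 ν θ t := by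
  refine ⟨Real.log (5 * Real.sqrt 200) + 1 / 2, ?_⟩
  intro μ hμ g s2 ν h hsu hne θ hd t ht
  have hV := Vt_pos s2 h.s2_nonneg ν h.levy θ hd hne
  have habs : 0 < |t| := abs_pos.2 ht
  have key := thmN_aux μ g s2 ν h hsu hne θ hd |t| habs t ht
  have e1 : t ^ 2 / (2 * |t| ^ 2) = 1 / 2 := by
    rw [sq_abs]; field_simp
  rw [e1] at key
  have hsV : 0 < Real.sqrt (Vt s2 ν θ) := Real.sqrt_pos.2 hV
  have h200 : 0 < Real.sqrt 200 := Real.sqrt_pos.2 (by norm_num)
  have hlog := Real.log_le_log (Real.exp_pos _) key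
  rw [Real.log_exp, Real.log_div (by positivity) (by positivity),
    Real.log_mul habs.ne' hsV.ne', Real.log_sqrt hV.le] at hlog
  linarith

end Pool.Agent.Lib.MP_a80c92_pr
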