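import Pool.Agent.Lib.MP_a80c92_pr.N.LCc

/-! # JOB N/Uni: mode of a log-concave function, tails

PROOF. `u = log f` is concave on `ℝ` (`posLC_concave`). `posLC_top`: since `f` is integrable, `u` cannot
be `≥ u 0` on `(0, ∞)`; so `u x0 < u 0` for some `x0 > 0`, and by concavity
`u x ≤ u 0 - c x` for `x ≥ x0`, `c = (u 0 - u x0)/x0 > 0`: `f x ≤ f 0 e^{-c x}`, so `f → 0`.
The same at `-∞`. `posLC_mode`: a continuous positive function tending to `0` at both ends attains its
maximum at some `a` (compactness of `{f ≥ f 0}`-type argument), and a concave `u` with maximum at `a`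
is nondecreasing on `(-∞, a]` and nonincreasing on `[a, ∞)`. -/

open MeasureTheory Set Filter Topology ProbabilityTheory
open scoped ENNReal NNReal

namespace Pool.Agent.Lib.MP_a80c92_pr

private theorem Uni_lt (f : ℝ → ℝ) (h : PosLC f) : ∃ x0 : ℝ, 0 < x0 ∧ f x0 < f 0 := by
  by_contra hc
  have h1 : ∀ x : ℝ, 0 < x → f 0 ≤ f x := fun x hx => not_lt.1 fun h2 => hc ⟨x, hx, h2⟩
  have h2 : Integrable (fun _ : ℝ => f 0) (volume.restrict (Ioi 0)) := by
    refine Integrable.mono' (h.int.integrableOn (s := Ioi 0)) aestronglyMeasurable_const ?_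
    refine (ae_restrict_iff' measurableSet_Ioi).2 (Eventually.of_forall fun x hx => ?_)
    rw [Real.norm_of_nonneg (h.pos 0).le]
    exact h1 x hx
  rcases integrable_const_iff.1 h2 with h3 | h3
  · exact (h.pos 0).ne' h3
  · have h4 := h3.measure_univ_lt_top
    rw [Measure.restrict_apply_univ, Real.volume_Ioi] at h4
    exact lt_irrefl _ h4

private theorem Uni_neg (f : ℝ → ℝ) (h : PosLC f) : PosLC fun x => f (-x) where
  cont := h.cont.comp continuous_neg
  pos x := h.pos _
  lc x y t hxy ht := by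
    have h1 := h.lc (-(y + t)) (-(x + t)) t (by linarith) ht
    have e1 : -(x + t) + t = -x := by ring
    have e2 : -(y + t) + t = -y := by ring
    rw [e1, e2] at h1
    calc f (-x) * f (-(y + t)) = f (-(y + t)) * f (-x) := mul_comm _ _
      _ ≤ f (-y) * f (-(x + t)) := h1
      _ = f (-(x + t)) * f (-y) := mul_comm _ _
  int := h.int.comp_neg

theorem posLC_top (f : ℝ → ℝ) (h : PosLC f) : Tendsto f atTop (𝓝 0) := by
  obtain ⟨x0, hx0, hlt⟩ := Uni_lt f h
  have hconc := posLC_concave f h
  have hu : Real.log (f x0) < Real.log (f 0) := Real.log_lt_log (h.pos _) hlt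
  obtain ⟨c, hc⟩ : ∃ c, c = (Real.log (f 0) - Real.log (f x0)) / x0 := ⟨_, rfl⟩
  have hc0 : 0 < c := by
    rw [hc]
    exact div_pos (by linarith) hx0
  have hb : ∀ x, x0 ≤ x → f x ≤ Real.exp (Real.log (f 0) - c * x) := by
    intro x hx
    have hx' : 0 < x := lt_of_lt_of_le hx0 hx
    have h0 := hconc.2
    have h1 := h0 (mem_univ (0 : ℝ)) (mem_univ x) (a := 1 - x0 / x) (b := x0 / x)
      (sub_nonneg.2 ((div_le_one hx').2 hx)) (div_pos hx0 hx').le (by ring)
    simp only [smul_eq_mul, mul_zero, zero_add] at h1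
    rw [div_mul_cancel₀ _ hx'.ne'] at h1
    have h2 : Real.log (f x) ≤ Real.log (f 0) - c * x := by
      have h3 : c * x * (x0 / x) = Real.log (f 0) - Real.log (f x0) := by
        rw [hc]
        field_simp
      have h4 : 0 < x0 / x := div_pos hx0 hx'
      have h5 : x0 / x * Real.log (f x) ≤ x0 / x * (Real.log (f 0) - c * x) := by
        have h6 : x0 / x * (Real.log (f 0) - c * x) = x0 / x * Real.log (f 0) - c * x * (x0 / x) := by ring
        rw [h6, h3]
        linarith
      exact le_of_mul_le_mul_left h5 h4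
    calc f x = Real.exp (Real.log (f x)) := (Real.exp_log (h.pos x)).symm
      _ ≤ _ := Real.exp_le_exp.2 h2
  have ht : Tendsto (fun x : ℝ => Real.exp (Real.log (f 0) - c * x)) atTop (𝓝 0) := by
    refine Real.tendsto_exp_atBot.comp ?_
    have h1 : Tendsto (fun x : ℝ => -(c * x) + Real.log (f 0)) atTop atBot :=
      tendsto_atBot_add_const_right _ _ (tendsto_neg_atTop_atBot.comp (tendsto_id.const_mul_atTop hc0))
    refine h1.congr fun x => ?_
    ring
  refine squeeze_zero' (Eventually.of_forall fun x => (h.pos x).le) ?_ ht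
  filter_upwards [eventually_ge_atTop x0] with x hx using hb x hx

theorem posLC_bot (f : ℝ → ℝ) (h : PosLC f) : Tendsto f atBot (𝓝 0) := by
  have h1 := (posLC_top _ (Uni_neg f h)).comp tendsto_neg_atBot_atTop
  refine h1.congr fun x => ?_
  simp only [Function.comp, neg_neg]

theorem posLC_mode (f : ℝ → ℝ) (h : PosLC f) :
    ∃ a : ℝ, (∀ x, f x ≤ f a) ∧ MonotoneOn f (Iic a) ∧ AntitoneOn f (Ici a) := by
  have h1 : ∀ᶠ x in cocompact ℝ, f x ≤ f 0 := by
    rw [cocompact_eq_atBot_atTop, eventually_sup]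
    exact ⟨((posLC_bot f h).eventually (eventually_lt_nhds (h.pos 0))).mono fun x hx => hx.le,
      ((posLC_top f h).eventually (eventually_lt_nhds (h.pos 0))).mono fun x hx => hx.le⟩
  obtain ⟨a, ha⟩ := h.cont.exists_forall_ge' 0 h1
  have hconc := posLC_concave f h
  have hl : ∀ x y, Real.log (f x) ≤ Real.log (f y) → f x ≤ f y := fun x y hxy =>
    (Real.log_le_log_iff (h.pos x) (h.pos y)).1 hxy
  refine ⟨a, ha, fun x _ y hy hxy => hl x y ?_, fun x hx y _ hxy => hl y x ?_⟩
  · have h2 := hconc.min_le_of_mem_Icc (mem_univ x) (mem_univ a) (z := y) ⟨hxy, hy⟩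
    rwa [min_eq_left (Real.log_le_log (h.pos x) (ha x))] at h2
  · have h2 := hconc.min_le_of_mem_Icc (mem_univ a) (mem_univ y) (z := x) ⟨hx, hxy⟩
    rwa [min_eq_right (Real.log_le_log (h.pos y) (ha y))] at h2

end Pool.Agent.Lib.MP_a80c92_pr
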